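import Mathlib

/-!
# Arithmetic of quadratic fields
-/

set_option autoImplicit false

namespace Pool.Agent.W2helper72.SK

open NumberField NumberField.ComplexEmbedding

section ari

variable {K : Type} [Field K] [NumberField K]

lemma nat_sq {D : ℕ} (hD : ¬ IsSquare D) : ¬ IsSquare (4 * D ^ 2 + 1) ∧
    ¬ IsSquare (D * (4 * D ^ 2 + 1)) := by
  have hD0 : 0 < D := Nat.pos_of_ne_zero fun h => hD (by rw [h]; exact ⟨0, rfl⟩)
  constructor
  · rintro ⟨t, ht⟩
    have h1 : 2 * D < t := by nlinarith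
    have h2 : t < 2 * D + 1 := by nlinarith
    omega
  · rintro ⟨t, ht⟩
    apply hD
    have hco : IsUnit (gcd D (4 * D ^ 2 + 1)) := by
      have h1 : Nat.Coprime D (4 * D ^ 2 + 1) := by
        have h2 : 4 * D ^ 2 + 1 = 4 * D * D + 1 := by ring
        rw [h2]
        exact (Nat.coprime_mul_right_add_right D 1 (4 * D)).mpr (Nat.coprime_one_right D)
      exact Nat.isUnit_iff.mpr h1
    obtain ⟨d, hd⟩ := exists_eq_pow_of_mul_eq_pow hco (show D * (4 * D ^ 2 + 1) = t ^ 2 by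
      rw [ht, sq])
    exact ⟨d, by rw [← sq]; exact hd⟩

/-- the third element depends on the first two -/
lemma dep (h2 : Module.finrank ℚ K = 2) (x y : K) : ∃ a b c : ℚ, (a ≠ 0 ∨ b ≠ 0 ∨ c ≠ 0) ∧
    (a : K) + b * x + c * y = 0 := by
  have h : ¬ LinearIndependent ℚ ![(1 : K), x, y] := by
    intro hl
    have h3 := hl.fintype_card_le_finrank
    rw [h2, Fintype.card_fin] at h3
    omega
  rw [Fintype.not_linearIndependent_iff] at h
  obtain ⟨g, hg, i, hi⟩ := h
  refine ⟨g 0, g 1, g 2, ?_, ?_⟩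
  · fin_cases i
    · exact Or.inl hi
    · exact Or.inr (Or.inl hi)
    · exact Or.inr (Or.inr hi)
  · rw [Fin.sum_univ_three] at hg
    simpa [Algebra.smul_def] using hg

lemma exists_irr (h2 : Module.finrank ℚ K = 2) : ∃ x : K, ∀ q : ℚ, (q : K) ≠ x := by
  by_contra hno
  push Not at hno
  have h4 : (⊥ : Subalgebra ℚ K) = ⊤ := by
    rw [eq_top_iff]
    intro x _
    obtain ⟨q, hq⟩ := hno x
    exact ⟨q, by simpa using hq⟩
  have h5 := Subalgebra.bot_eq_top_iff_finrank_eq_one.mp h4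
  omega

lemma irr_mul {x : K} (hx : ∀ q : ℚ, (q : K) ≠ x) {b a : ℚ} (h : (b : K) * x = a) : b = 0 := by
  by_contra hb
  apply hx (a / b)
  have hb' : (b : K) ≠ 0 := by exact_mod_cast hb
  push_cast
  rw [← h, mul_div_cancel_left₀ _ hb']

/-- a real quadratic field contains a square root of a natural number -/
lemma exists_theta (h2 : Module.finrank ℚ K = 2) (hK : IsTotallyReal K) :
    ∃ (θ : K) (D : ℕ), θ * θ = D ∧ ¬ IsSquare D ∧ (∀ q : ℚ, (q : K) ≠ θ) := by
  obtain ⟨x, hx⟩ := exists_irr h2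
  obtain ⟨a, b, c, hne, habc⟩ := dep h2 x (x * x)
  have hc : c ≠ 0 := by
    rintro rfl
    have h3 : b = 0 := irr_mul hx (a := -a) (by push_cast at habc ⊢; linear_combination habc)
    rw [h3] at habc
    push_cast at habc
    have h4 : (a : K) = 0 := by linear_combination habc
    have h5 : a = 0 := by exact_mod_cast h4
    rcases hne with h | h | h
    · exact h h5
    · exact h h3
    · exact h rfl
  set r : ℚ := b ^ 2 - 4 * a * c with hr
  set θ₀ : K := 2 * c * x + b with hθ₀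
  have h0 : θ₀ * θ₀ = (r : K) := by
    rw [hθ₀, hr]
    push_cast
    linear_combination 4 * (c : K) * habc
  have h0irr : ∀ q : ℚ, (q : K) ≠ θ₀ := by
    intro q hq
    have h3 := irr_mul hx (b := 2 * c) (a := q - b) (by
      push_cast
      rw [hθ₀] at hq
      linear_combination -hq)
    exact hc (by linarith)
  set θ : K := (r.den : K) * θ₀ with hθ
  have hden : (r.den : K) ≠ 0 := by exact_mod_cast r.den_ne_zero
  have hθ1 : θ * θ = ((r.num * r.den : ℤ) : K) := by
    have h3 : (r : K) * (r.den : K) = (r.num : K) := by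
      have h4 := Rat.mul_den_eq_num r
      exact_mod_cast congrArg (fun z : ℚ => (z : K)) h4
    rw [hθ]
    push_cast
    linear_combination (r.den : K) ^ 2 * h0 + (r.den : K) * h3
  have hirr : ∀ q : ℚ, (q : K) ≠ θ := by
    intro q hq
    apply h0irr (q / r.den)
    push_cast
    rw [hq, hθ, mul_div_cancel_left₀ _ hden]
  -- the sign
  have hpos : 0 ≤ r.num * r.den := by
    obtain ⟨φ⟩ : Nonempty (K →+* ℂ) := inferInstance
    have hφ : IsReal φ := by
      have := IsTotallyReal.isReal (K := K) (InfinitePlace.mk φ)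
      rwa [InfinitePlace.isReal_mk_iff] at this
    have h3 : ((φ θ).im) = 0 :=
      Complex.conj_eq_iff_im.mp (RingHom.congr_fun (ComplexEmbedding.isReal_iff.mp hφ) θ)
    have h4 : φ θ * φ θ = ((r.num * r.den : ℤ) : ℂ) := by
      rw [← map_mul, hθ1, map_intCast]
    have h5 := congrArg Complex.re h4
    rw [Complex.mul_re, h3, mul_zero, sub_zero, Complex.intCast_re] at h5
    have h6 : (0 : ℝ) ≤ ((r.num * r.den : ℤ) : ℝ) := by
      rw [← h5]
      exact mul_self_nonneg _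
    exact_mod_cast h6
  obtain ⟨D, hD⟩ := Int.eq_ofNat_of_zero_le hpos
  rw [hD] at hθ1
  refine ⟨θ, D, by simpa using hθ1, ?_, hirr⟩
  rintro ⟨t, ht⟩
  have h3 : θ * θ = (t : K) * t := by
    rw [hθ1, ht]
    push_cast
    rfl
  rcases mul_self_eq_mul_self_iff.mp h3 with h4 | h4
  · exact hirr t (by rw [h4]; simp)
  · exact hirr (-t) (by rw [h4]; simp)

variable {θ : K} {D : ℕ}

lemma coords (h2 : Module.finrank ℚ K = 2) (hirr : ∀ q : ℚ, (q : K) ≠ θ) (y : K) :
    ∃ u v : ℚ, y = u + v * θ := by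
  obtain ⟨a, b, c, hne, habc⟩ := dep h2 θ y
  have hc : c ≠ 0 := by
    rintro rfl
    have h3 : b = 0 := irr_mul hirr (a := -a) (by push_cast at habc ⊢; linear_combination habc)
    rw [h3] at habc
    push_cast at habc
    have h4 : (a : K) = 0 := by linear_combination habc
    have h5 : a = 0 := by exact_mod_cast h4
    rcases hne with h | h | h
    · exact h h5
    · exact h h3
    · exact h rfl
  have hc' : (c : K) ≠ 0 := by exact_mod_cast hc
  refine ⟨-a / c, -b / c, ?_⟩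
  push_cast
  field_simp
  linear_combination habc

lemma cmp (hirr : ∀ q : ℚ, (q : K) ≠ θ) {a b a' b' : ℚ} (h : (a : K) + b * θ = a' + b' * θ) :
    a = a' ∧ b = b' := by
  have h1 : b - b' = 0 := irr_mul hirr (a := a' - a) (by push_cast; linear_combination h)
  have h2 : b = b' := by linarith
  refine ⟨?_, h2⟩
  rw [h2] at h
  have h3 : (a : K) = a' := add_right_cancel h
  exact_mod_cast h3

/-- `4 (4 D² + 1)` is not a square -/
lemma not_sq_norm (h2 : Module.finrank ℚ K = 2) (hθ : θ * θ = D) (hD : ¬ IsSquare D)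
    (hirr : ∀ q : ℚ, (q : K) ≠ θ) : ¬ IsSquare ((4 * (4 * D ^ 2 + 1) : K)) := by
  rintro ⟨y, hy⟩
  obtain ⟨u, v, rfl⟩ := coords h2 hirr y
  have h1 : ((4 * (4 * D ^ 2 + 1) : ℚ) : K) + ((0 : ℚ) : K) * θ
      = ((u ^ 2 + D * v ^ 2 : ℚ) : K) + ((2 * u * v : ℚ) : K) * θ := by
    push_cast
    linear_combination hy + (v : K) ^ 2 * hθ
  obtain ⟨h3, h4⟩ := cmp hirr h1
  obtain ⟨n1, n2⟩ := nat_sq hD
  have h5 : u = 0 ∨ v = 0 := by
    rcases mul_eq_zero.mp h4.symm with h | h
    · left; linarith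
    · right; exact h
  rcases h5 with rfl | rfl
  · apply n2
    rw [← Rat.isSquare_natCast_iff]
    refine ⟨D * v / 2, ?_⟩
    push_cast
    linear_combination (D : ℚ) / 4 * h3
  · apply n1
    rw [← Rat.isSquare_natCast_iff]
    refine ⟨u / 2, ?_⟩
    push_cast
    linear_combination (1 / 4 : ℚ) * h3

/-- `1 + (1 + 2 θ)²` is not a square -/
lemma not_sq_alpha (h2 : Module.finrank ℚ K = 2) (hθ : θ * θ = D) (hD : ¬ IsSquare D)
    (hirr : ∀ q : ℚ, (q : K) ≠ θ) : ¬ IsSquare (1 + (1 + 2 * θ) ^ 2 : K) := by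
  rintro ⟨y, hy⟩
  obtain ⟨u, v, rfl⟩ := coords h2 hirr y
  have h1 : ((2 + 4 * D : ℚ) : K) + ((4 : ℚ) : K) * θ
      = ((u ^ 2 + D * v ^ 2 : ℚ) : K) + ((2 * u * v : ℚ) : K) * θ := by
    push_cast
    linear_combination hy + (v : K) ^ 2 * hθ - 4 * hθ
  obtain ⟨h3, h4⟩ := cmp hirr h1
  apply not_sq_norm h2 hθ hD hirr
  refine ⟨(u + v * θ) * (u - v * θ), ?_⟩
  have h5 : ((u : K) - v * θ) ^ 2 = 2 + 4 * D - 4 * θ := by
    have h6 : ((2 + 4 * D : ℚ) : K) = ((u ^ 2 + D * v ^ 2 : ℚ) : K) := by rw [h3]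
    have h7 : ((4 : ℚ) : K) = ((2 * u * v : ℚ) : K) := by rw [h4]
    push_cast at h6 h7
    linear_combination (v : K) ^ 2 * hθ - h6 + θ * h7
  have h8 : ((u : K) + v * θ) ^ 2 = 2 + 4 * D + 4 * θ := by
    linear_combination -hy + 4 * hθ
  calc (4 * (4 * D ^ 2 + 1) : K) = (2 + 4 * D + 4 * θ) * (2 + 4 * D - 4 * θ) := by
        linear_combination 16 * hθ
    _ = ((u : K) + v * θ) ^ 2 * ((u : K) - v * θ) ^ 2 := by rw [h5, h8]
    _ = _ := by ring

end ari

end Pool.Agent.W2helper72.SK
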