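import Mathlib

/-!
# Two subgroups of index two
-/

set_option autoImplicit false

namespace Pool.Agent.W2helper72.SK

/-- Two linear characters of different subgroups of index two which agree on the intersection
induce the same function. -/
theorem sum_eq {G : Type} [Group G] [Fintype G] {S T : Subgroup G} (hS : S.index = 2)
    (hT : T.index = 2) {a b : G → ℂ} (ha0 : ∀ g, g ∉ S → a g = 0) (hb0 : ∀ g, g ∉ T → b g = 0)
    (ha : ∀ x ∈ S, ∀ y ∈ S, a (x * y) = a x * a y) (hb : ∀ x ∈ T, ∀ y ∈ T, b (x * y) = b x * b y)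
    (hb1 : ∀ x ∈ T, b x ≠ 0) (ha1 : ∀ x ∈ S, a x ≠ 0)
    (hab : ∀ x ∈ S, x ∈ T → a x = b x) {c : G} (hcS : c ∈ S) (hcT : c ∉ T)
    (hc : ∀ g, g ∉ S → a (g * c * g⁻¹) = - a c) (g : G) :
    ∑ x, a (x⁻¹ * g * x) = ∑ x, b (x⁻¹ * g * x) := by
  have nS : S.Normal := Subgroup.normal_of_index_eq_two hS
  have nT : T.Normal := Subgroup.normal_of_index_eq_two hT
  have mS : ∀ {x y : G}, x * y ∈ S ↔ (x ∈ S ↔ y ∈ S) := fun {x y} =>
    Subgroup.mul_mem_iff_of_index_two hS
  have mT : ∀ {x y : G}, x * y ∈ T ↔ (x ∈ T ↔ y ∈ T) := fun {x y} =>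
    Subgroup.mul_mem_iff_of_index_two hT
  have cS : ∀ {x y : G}, x⁻¹ * y * x ∈ S ↔ y ∈ S := by
    intro x y
    rw [nS.mem_comm_iff, ← mul_assoc, mul_inv_cancel, one_mul]
  have cT : ∀ {x y : G}, x⁻¹ * y * x ∈ T ↔ y ∈ T := by
    intro x y
    rw [nT.mem_comm_iff, ← mul_assoc, mul_inv_cancel, one_mul]
  have a1 : a 1 = 1 := by
    have h := ha 1 S.one_mem 1 S.one_mem
    rw [mul_one] at h
    exact mul_left_cancel₀ (ha1 1 S.one_mem) (by rw [mul_one]; exact h.symm)
  have b1 : b 1 = 1 := by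
    have h := hb 1 T.one_mem 1 T.one_mem
    rw [mul_one] at h
    exact mul_left_cancel₀ (hb1 1 T.one_mem) (by rw [mul_one]; exact h.symm)
  obtain ⟨t, htT, htS⟩ : ∃ t ∈ T, t ∉ S := by
    by_contra hcon
    push Not at hcon
    have h1 : T ≤ S := hcon
    have h2 := Subgroup.relIndex_mul_index h1
    rw [hS, hT] at h2
    have h3 : T.relIndex S = 1 := by omega
    exact hcT (Subgroup.relIndex_eq_one.mp h3 hcS)
  by_cases hgS : g ∈ S
  · by_cases hgT : g ∈ T
    · exact Finset.sum_congr rfl fun x _ => hab _ (cS.mpr hgS) (cT.mpr hgT)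
    · rw [Finset.sum_eq_zero (s := Finset.univ) (f := fun x => b (x⁻¹ * g * x))
        fun x _ => hb0 _ fun h => hgT (cT.mp h)]
      have key : ∀ y, y ∈ S → y ∉ T → a (t⁻¹ * y * t) = - a y := by
        intro y hyS hyT
        have h0S : c⁻¹ * y ∈ S := S.mul_mem (S.inv_mem hcS) hyS
        have h0T : c⁻¹ * y ∈ T := mT.mpr ⟨fun h => absurd (T.inv_mem_iff.mp h) hcT,
          fun h => absurd h hyT⟩
        have h1 : t⁻¹ * y * t = (t⁻¹ * c * (t⁻¹)⁻¹) * (t⁻¹ * (c⁻¹ * y) * t) := by group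
        have h2 : y = c * (c⁻¹ * y) := by group
        have h3 : t⁻¹ * c * (t⁻¹)⁻¹ ∈ S := nS.conj_mem _ hcS _
        have h4 : t⁻¹ * (c⁻¹ * y) * t ∈ S := cS.mpr h0S
        have h5 : t⁻¹ * (c⁻¹ * y) * t ∈ T := cT.mpr h0T
        have h6 : b (t⁻¹ * (c⁻¹ * y) * t) = b (c⁻¹ * y) := by
          rw [hb _ (T.mul_mem (T.inv_mem htT) h0T) _ htT, hb _ (T.inv_mem htT) _ h0T,
            mul_comm (b t⁻¹), mul_assoc, ← hb _ (T.inv_mem htT) _ htT, inv_mul_cancel, b1, mul_one]
        rw [h1, ha _ h3 _ h4, hc _ (fun h => htS (S.inv_mem_iff.mp h)), hab _ h4 h5, h6,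
          ← hab _ h0S h0T]
        conv_rhs => rw [h2, ha _ hcS _ h0S]
        ring
      have h7 : ∑ x, a (x⁻¹ * g * x) = - ∑ x, a (x⁻¹ * g * x) := by
        conv_lhs => rw [← Equiv.sum_comp (Equiv.mulRight t)]
        rw [← Finset.sum_neg_distrib]
        refine Finset.sum_congr rfl fun x _ => ?_
        have h8 : (Equiv.mulRight t x)⁻¹ * g * (Equiv.mulRight t x)
            = t⁻¹ * (x⁻¹ * g * x) * t := by
          simp only [Equiv.coe_mulRight]
          group
        rw [h8]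
        exact key _ (cS.mpr hgS) (fun h => hgT (cT.mp h))
      have h9 : (2 : ℂ) * ∑ x, a (x⁻¹ * g * x) = 0 := by linear_combination h7
      exact (mul_eq_zero.mp h9).resolve_left two_ne_zero
  · rw [Finset.sum_eq_zero (s := Finset.univ) (f := fun x => a (x⁻¹ * g * x))
      fun x _ => ha0 _ fun h => hgS (cS.mp h)]
    by_cases hgT : g ∈ T
    · have key : ∀ y, y ∈ T → y ∉ S → b (c⁻¹ * y * c) = - b y := by
        intro y hyT hyS
        have h1 : c⁻¹ * y * c = (c⁻¹ * (y * c * y⁻¹)) * y := by group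
        have h2 : y * c * y⁻¹ ∈ S := nS.conj_mem _ hcS _
        have h3 : c⁻¹ * (y * c * y⁻¹) ∈ S := S.mul_mem (S.inv_mem hcS) h2
        have h4 : c⁻¹ * (y * c * y⁻¹) ∈ T := by
          have : c⁻¹ * (y * c * y⁻¹) = (c⁻¹ * y * c) * y⁻¹ := by group
          rw [this]
          exact T.mul_mem (cT.mpr hyT) (T.inv_mem hyT)
        rw [h1, hb _ h4 _ hyT, ← hab _ h3 h4, ha _ (S.inv_mem hcS) _ h2, hc _ hyS]
        have h5 : a c⁻¹ * a c = 1 := by
          rw [← ha _ (S.inv_mem hcS) _ hcS, inv_mul_cancel, a1]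
        linear_combination (- b y) * h5
      have h7 : ∑ x, b (x⁻¹ * g * x) = - ∑ x, b (x⁻¹ * g * x) := by
        conv_lhs => rw [← Equiv.sum_comp (Equiv.mulRight c)]
        rw [← Finset.sum_neg_distrib]
        refine Finset.sum_congr rfl fun x _ => ?_
        have h8 : (Equiv.mulRight c x)⁻¹ * g * (Equiv.mulRight c x)
            = c⁻¹ * (x⁻¹ * g * x) * c := by
          simp only [Equiv.coe_mulRight]
          group
        rw [h8]
        exact key _ (cT.mpr hgT) (fun h => hgS (cS.mp h))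
      have h9 : (2 : ℂ) * ∑ x, b (x⁻¹ * g * x) = 0 := by linear_combination h7
      exact ((mul_eq_zero.mp h9).resolve_left two_ne_zero).symm
    · rw [Finset.sum_eq_zero fun x _ => hb0 _ fun h => hgT (cT.mp h)]

end Pool.Agent.W2helper72.SK
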