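import Mathlib
import Pool.Agent.W2helper73.SO.Dat
import Pool.Agent.W2helper72.SK.Grp

/-!
# The invariant at a finite level: vanishing
-/

set_option autoImplicit false
set_option linter.unusedSectionVars false

namespace Pool.Agent.W2helper72.SK

open NumberField NumberField.ComplexEmbedding Pool.Agent.K4H74.ST Pool.Agent.W2helper73.SO
  Pool.Agent.R389

section gen

variable {N : Type} [Field N] [NumberField N] [IsGalois ℚ N]
variable {S : Subgroup (N ≃ₐ[ℚ] N)} (θ : S →* ℂˣ)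
variable {F E : Type} [Field F] [NumberField F] [Field E] [NumberField E] [Algebra F E]
  [IsGalois F E]

/-- the weight -/
noncomputable def wd (s : S) : ℂ := (((θ s)⁻¹ : ℂˣ) : ℂ) - ((θ s : ℂˣ) : ℂ)

lemma wd_mul {c : S} (hc : θ c * θ c = 1) (s : S) : wd θ (c * s) = ((θ c : ℂˣ) : ℂ) * wd θ s := by
  have h1 : (θ c)⁻¹ = θ c := inv_eq_of_mul_eq_one_left hc
  rw [wd, wd, map_mul, mul_inv, h1, Units.val_mul, Units.val_mul]
  ring

lemma wd_inv (s : S) : wd θ s⁻¹ = - wd θ s := by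
  rw [wd, wd, map_inv, inv_inv]
  ring

lemma sum_shift {f : S → ℂ} (z : S) {u : ℂ} (h : ∀ s, f (z * s) = u * f s) (hu : u ≠ 1) :
    ∑ s : S, f s = 0 := by
  have h1 : ∑ s : S, f s = u * ∑ s : S, f s := by
    conv_lhs => rw [← Equiv.sum_comp (Equiv.mulLeft z)]
    rw [Finset.mul_sum]
    exact Finset.sum_congr rfl fun s _ => h s
  have h2 : (1 - u) * ∑ s : S, f s = 0 := by linear_combination h1
  exact (mul_eq_zero.mp h2).resolve_left (sub_ne_zero.mpr (Ne.symm hu))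

lemma FN_shift {χ : (E ≃ₐ[F] E) → ℂ} (z : S) {u v : ℂ} (hu : ∀ s, wd θ (z * s) = u * wd θ s)
    (hv : ∀ (J : E →+* N) (s : S), Dd χ J (z * s) = v * Dd χ J s) (huv : u * v = -1) :
    FN S (wd θ) F E χ = 0 := by
  rw [FN, sum_shift (f := fun s => wd θ s * ∑ J : E →+* N, Dd χ J s) z (u := -1), mul_zero]
  · intro s
    rw [hu, Finset.sum_congr rfl fun J _ => hv J s, ← Finset.mul_sum]
    linear_combination (wd θ s * ∑ J : E →+* N, Dd χ J s) * huv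
  · norm_num

lemma FN_inv {χ : (E ≃ₐ[F] E) → ℂ} (hv : ∀ (J : E →+* N) (s : S), Dd χ J s⁻¹ = Dd χ J s) :
    FN S (wd θ) F E χ = 0 := by
  have h1 : ∑ s : S, wd θ s * ∑ J : E →+* N, Dd χ J s
      = - ∑ s : S, wd θ s * ∑ J : E →+* N, Dd χ J s := by
    conv_lhs => rw [← Equiv.sum_comp (Equiv.inv S)]
    rw [← Finset.sum_neg_distrib]
    refine Finset.sum_congr rfl fun s _ => ?_
    rw [Equiv.inv_apply, wd_inv, Finset.sum_congr rfl fun J _ => hv J s]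
    ring
  have h2 : (2 : ℂ) * ∑ s : S, wd θ s * ∑ J : E →+* N, Dd χ J s = 0 := by linear_combination h1
  rw [FN, (mul_eq_zero.mp h2).resolve_left two_ne_zero, mul_zero]

/-- a complex conjugation of `N` on an extension of a totally real field -/
lemma exists_h0 (hF : IsTotallyReal F) {z : S} {j : N →+* ℂ} (hz : IsConj j (z : N ≃ₐ[ℚ] N))
    (J : E →+* N) : ∃ h0 : E ≃ₐ[F] E, Rl z J h0 ∧ IsConj (j.comp J) h0 := by
  obtain ⟨h0, hh⟩ := exists_gal (K := F) J (((z : N ≃ₐ[ℚ] N) : N →+* N).comp J) (by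
    ext x
    apply j.injective
    have h1 := hz.eq (J (algebraMap F E x))
    change j (J (algebraMap F E x)) = j ((z : N ≃ₐ[ℚ] N) (J (algebraMap F E x)))
    rw [h1]
    have h2 : IsReal (j.comp (J.comp (algebraMap F E))) := by
      have := IsTotallyReal.isReal (K := F) (InfinitePlace.mk (j.comp (J.comp (algebraMap F E))))
      rwa [InfinitePlace.isReal_mk_iff] at this
    exact (RingHom.congr_fun (ComplexEmbedding.isReal_iff.mp h2) x).symm)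
  refine ⟨h0, fun x => hh x, ?_⟩
  ext x
  change star (j (J x)) = j (J (h0 x))
  have h3 : (z : N ≃ₐ[ℚ] N) (J x) = J (h0 x) := hh x
  rw [← h3, hz.eq]

lemma Dd_mul {χ : (E ≃ₐ[F] E) → ℂ} {J : E →+* N} {z : S} {h0 : E ≃ₐ[F] E} (hz : Rl z J h0)
    {v : ℂ} (hv : ∀ g, χ (h0 * g) = v * χ g) (s : S) : Dd χ J (z * s) = v * Dd χ J s := by
  by_cases h : ∃ h : E ≃ₐ[F] E, Rl s J h
  · obtain ⟨h, hh⟩ := h
    have h1 : Rl (z * s) J (h0 * h) := fun x => by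
      change (z : N ≃ₐ[ℚ] N) ((s : N ≃ₐ[ℚ] N) (J x)) = J (h0 (h x))
      rw [hh x, hz (h x)]
    rw [Dd_eq S χ h1, Dd_eq S χ hh, hv]
  · rw [Dd_zero S χ h, Dd_zero S χ, mul_zero]
    rintro ⟨h', hh⟩
    refine h ⟨h0⁻¹ * h', fun x => ?_⟩
    apply (z : N ≃ₐ[ℚ] N).injective
    have h2 := hh x
    change (z : N ≃ₐ[ℚ] N) ((s : N ≃ₐ[ℚ] N) (J x)) = J (h' x) at h2
    rw [h2, hz]
    congr 1
    exact (AlgEquiv.apply_symm_apply h0 (h' x)).symm

/-- totally even and totally odd characters over totally real fields -/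
lemma FN_scal {χ : (E ≃ₐ[F] E) → ℂ} (hF : IsTotallyReal F) {e : ℂ}
    (he : ∀ c ∈ CC F E, ∀ g, χ (c * g) = e * χ g) {z : S} {j : N →+* ℂ}
    (hz : IsConj j (z : N ≃ₐ[ℚ] N)) (hθ : ((θ z : ℂˣ) : ℂ) * e = -1) :
    FN S (wd θ) F E χ = 0 := by
  have h1 : θ z * θ z = 1 := by
    rw [← map_mul, show z * z = 1 from Subtype.ext (isConj_sq hz), map_one]
  refine FN_shift θ z (wd_mul θ h1) (fun J s => ?_) hθ
  obtain ⟨h0, h2, h3⟩ := exists_h0 (F := F) (E := E) hF hz J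
  exact Dd_mul h2 (he h0 ⟨_, h3⟩) s

/-- real valued characters -/
lemma FN_real {χ : (E ≃ₐ[F] E) → ℂ} (hχ : ∀ g, χ g⁻¹ = χ g) : FN S (wd θ) F E χ = 0 := by
  refine FN_inv θ fun J s => ?_
  have key : ∀ {s : S} {h : E ≃ₐ[F] E}, Rl s J h → Rl s⁻¹ J h⁻¹ := by
    intro s h hh x
    apply (s : N ≃ₐ[ℚ] N).injective
    rw [hh]
    have h1 : (s : N ≃ₐ[ℚ] N) (((s⁻¹ : S) : N ≃ₐ[ℚ] N) (J x)) = J x :=
      AlgEquiv.apply_symm_apply (s : N ≃ₐ[ℚ] N) (J x)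
    rw [h1]
    congr 1
    exact (AlgEquiv.apply_symm_apply h x).symm
  by_cases h : ∃ h : E ≃ₐ[F] E, Rl s J h
  · obtain ⟨h, hh⟩ := h
    rw [Dd_eq S χ hh, Dd_eq S χ (key hh), hχ]
  · rw [Dd_zero S χ h, Dd_zero S χ]
    rintro ⟨h', hh⟩
    apply h
    have h2 := key hh
    rw [inv_inv] at h2
    exact ⟨_, h2⟩

/-- complex conjugations are conjugate -/
lemma conj_conj {j₁ j₂ : N →+* ℂ} {c₁ c₂ : N ≃ₐ[ℚ] N} (h₁ : IsConj j₁ c₁) (h₂ : IsConj j₂ c₂) :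
    ∃ g : N ≃ₐ[ℚ] N, c₂ = g⁻¹ * c₁ * g := by
  obtain ⟨σ, hσ⟩ := ComplexEmbedding.exists_comp_symm_eq_of_comp_eq (k := ℚ) j₁ j₂ (by ext x; simp)
  have h4 := h₁.comp σ.symm
  have h5 : (j₁.comp ((σ.symm : N ≃ₐ[ℚ] N) : N →+* N)) = j₂ := hσ
  rw [h5] at h4
  exact ⟨σ.symm, h₂.ext h4⟩

/-- abelian extensions of `ℚ` -/
lemma FN_abel {χ : (E ≃ₐ[F] E) → ℂ} [IsGalois ℚ E] (hab : ∀ g h : E ≃ₐ[ℚ] E, g * h = h * g)
    {c₁ c₂ : S} {j₁ j₂ : N →+* ℂ} (h₁ : IsConj j₁ (c₁ : N ≃ₐ[ℚ] N))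
    (h₂ : IsConj j₂ (c₂ : N ≃ₐ[ℚ] N)) (t₁ : θ c₁ = 1) (t₂ : θ c₂ = -1) :
    FN S (wd θ) F E χ = 0 := by
  have h3 : θ (c₁ * c₂) = -1 := by rw [map_mul, t₁, t₂, one_mul]
  refine FN_shift θ (c₁ * c₂) (u := -1) (v := 1) (fun s => ?_) (fun J s => ?_) (by norm_num)
  · rw [wd_mul θ (by rw [h3]; norm_num), h3]
    norm_num
  · have h4 : ∀ x, ((c₁ * c₂ : S) : N ≃ₐ[ℚ] N) (J x) = J x := by
      have hr : ∀ τ : N ≃ₐ[ℚ] N, ∃ r : E ≃ₐ[ℚ] E, ∀ x, τ (J x) = J (r x) := by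
        intro τ
        obtain ⟨r, hr⟩ := exists_gal (K := ℚ) J ((τ : N →+* N).comp J) (by ext x; simp)
        exact ⟨r, fun x => hr x⟩
      obtain ⟨g, hg⟩ := conj_conj h₁ h₂
      obtain ⟨r₁, hr₁⟩ := hr c₁
      obtain ⟨r₂, hr₂⟩ := hr c₂
      obtain ⟨rg, hrg⟩ := hr g
      have e1 : r₁ * r₁ = 1 := by
        ext x
        apply J.injective
        change J (r₁ (r₁ x)) = J x
        rw [← hr₁, ← hr₁]
        exact AlgEquiv.congr_fun (isConj_sq h₁) (J x)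
      have e2 : r₂ = r₁ := by
        have h5 : rg * r₂ = r₁ * rg := by
          ext x
          apply J.injective
          change J (rg (r₂ x)) = J (r₁ (rg x))
          rw [← hrg, ← hr₂, ← hr₁, ← hrg, hg]
          change g (g⁻¹ ((c₁ : N ≃ₐ[ℚ] N) (g (J x)))) = _
          exact AlgEquiv.apply_symm_apply g _
        rw [hab r₁ rg] at h5
        exact mul_left_cancel h5
      intro x
      change (c₁ : N ≃ₐ[ℚ] N) ((c₂ : N ≃ₐ[ℚ] N) (J x)) = J x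
      rw [hr₂, hr₁, e2]
      have h6 := AlgEquiv.congr_fun e1 x
      change r₁ (r₁ x) = x at h6
      rw [h6]
    have h5 : Rl (K := F) (L := E) (c₁ * c₂) J 1 := h4
    exact Dd_mul h5 (v := 1) (fun g => by rw [one_mul, one_mul]) s

end gen

end Pool.Agent.W2helper72.SK
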