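import Mathlib
import Pool.Agent.W2helper72.SK.Lev

/-!
# The invariant at a finite level: the character of mixed signature
-/

set_option autoImplicit false
set_option linter.unusedSectionVars false

namespace Pool.Agent.W2helper72.SK

open NumberField NumberField.ComplexEmbedding Pool.Agent.K4H74.ST Pool.Agent.W2helper73.SO
  Pool.Agent.R389

section idx

variable {N : Type} [Field N] [NumberField N] [IsGalois ℚ N]
variable {K : Type} [Field K] [NumberField K]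

/-- the index of the stabiliser -/
lemma index_Hs (φ : K →+* N) : (Hs φ).index = Module.finrank ℚ K := by
  let e : K →ₐ[ℚ] N := φ.toRatAlgHom
  have h1 : Hs φ = e.fieldRange.fixingSubgroup := by
    ext g
    rw [mem_Hs, IntermediateField.mem_fixingSubgroup_iff]
    constructor
    · rintro h _ ⟨k, rfl⟩
      exact h k
    · intro h k
      exact h _ ⟨k, rfl⟩
  rw [h1, ← IntermediateField.finrank_eq_fixingSubgroup_index]
  exact (AlgEquiv.ofInjectiveField e).toLinearEquiv.finrank_eq.symm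

lemma card_Hs (φ : K →+* N) : Nat.card (Hs φ) * Module.finrank ℚ K = Nat.card (N ≃ₐ[ℚ] N) := by
  rw [← index_Hs φ]
  exact Subgroup.card_mul_index _

/-- the complex conjugations fix the embeddings of the totally real fields -/
lemma conj_mem_Hs (hK : IsTotallyReal K) (φ : K →+* N) {j : N →+* ℂ} {c : N ≃ₐ[ℚ] N}
    (hc : IsConj j c) : c ∈ Hs φ := by
  rw [mem_Hs]
  intro k
  apply j.injective
  rw [hc.eq]
  have h2 : IsReal (j.comp φ) := by
    have := IsTotallyReal.isReal (K := K) (InfinitePlace.mk (j.comp φ))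
    rwa [InfinitePlace.isReal_mk_iff] at this
  exact RingHom.congr_fun (ComplexEmbedding.isReal_iff.mp h2) k

/-- the complex conjugations move the embeddings of the totally complex fields -/
lemma conj_notMem_Hs (hK : IsTotallyComplex K) (φ : K →+* N) {j : N →+* ℂ} {c : N ≃ₐ[ℚ] N}
    (hc : IsConj j c) : c ∉ Hs φ := by
  rw [mem_Hs]
  intro h
  have h2 : ¬ IsReal (j.comp φ) := by
    have := IsTotallyComplex.isComplex (K := K) (InfinitePlace.mk (j.comp φ))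
    rwa [InfinitePlace.isComplex_mk_iff] at this
  apply h2
  rw [ComplexEmbedding.isReal_iff]
  ext k
  change star (j (φ k)) = j (φ k)
  rw [← hc.eq, h]

end idx

section mix

variable {K L : Type} [Field K] [NumberField K] [Field L] [NumberField L] [Algebra K L]
  [IsGalois K L]

/-- a character of mixed signature over a real quadratic field -/
structure Mix (ψ : (L ≃ₐ[K] L) →* ℂˣ) : Prop where
  two : Module.finrank ℚ K = 2
  real : IsTotallyReal K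
  pos : ∃ t ∈ CC K L, ψ t = 1
  neg : ∃ t ∈ CC K L, ψ t = -1

/-- complex conjugations over the same place are conjugate -/
lemma conj_over {j j' : L →+* ℂ} {t t' : L ≃ₐ[K] L} (h : IsConj j t) (h' : IsConj j' t')
    (hK : j.comp (algebraMap K L) = j'.comp (algebraMap K L)) (ψ : (L ≃ₐ[K] L) →* ℂˣ) :
    ψ t' = ψ t := by
  obtain ⟨σ, hσ⟩ := ComplexEmbedding.exists_comp_symm_eq_of_comp_eq (k := K) j j' hK
  have h4 := h.comp σ.symm
  have h5 : (j.comp ((σ.symm : L ≃ₐ[K] L) : L →+* L)) = j' := hσ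
  rw [h5] at h4
  have h6 : t' = σ.symm⁻¹ * t * σ.symm := h'.ext h4
  rw [h6, map_mul, map_mul, map_inv, mul_comm, ← mul_assoc, mul_inv_cancel, one_mul]

/-- the places -/
lemma Mix.exists_place {ψ : (L ≃ₐ[K] L) →* ℂˣ} (hψ : Mix ψ) : ∃ τ : K →+* ℂ,
    ∀ (j : L →+* ℂ) (t : L ≃ₐ[K] L), IsConj j t →
      (j.comp (algebraMap K L) = τ → ψ t = 1) ∧ (j.comp (algebraMap K L) ≠ τ → ψ t = -1) := by
  classical
  obtain ⟨t₁, ⟨j₁, h₁⟩, e₁⟩ := hψ.pos
  obtain ⟨t₂, ⟨j₂, h₂⟩, e₂⟩ := hψ.neg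
  refine ⟨j₁.comp (algebraMap K L), fun j t h => ⟨fun h3 => ?_, fun h3 => ?_⟩⟩
  · rw [conj_over h₁ h h3.symm ψ, e₁]
  · have h4 : j₂.comp (algebraMap K L) ≠ j₁.comp (algebraMap K L) := by
      intro h5
      have h6 := conj_over h₁ h₂ h5.symm ψ
      rw [e₁, e₂] at h6
      have h7 : (((-1 : ℂˣ)) : ℂ) = ((1 : ℂˣ) : ℂ) := by rw [h6]
      norm_num at h7
    have h5 : j.comp (algebraMap K L) = j₂.comp (algebraMap K L) := by
      by_contra h6
      have h7 : Fintype.card (K →+* ℂ) = 2 := by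
        rw [← hψ.two]
        exact Embeddings.card K ℂ
      have h8 : ({j.comp (algebraMap K L), j₂.comp (algebraMap K L), j₁.comp (algebraMap K L)} :
          Finset (K →+* ℂ)).card = 3 := Finset.card_eq_three.mpr ⟨_, _, _, h6, h3, h4, rfl⟩
      have h9 := Finset.card_le_univ ({j.comp (algebraMap K L), j₂.comp (algebraMap K L),
        j₁.comp (algebraMap K L)} : Finset (K →+* ℂ))
      omega
    rw [conj_over h₂ h h5.symm ψ, e₂]

end mix

section lev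

variable {N : Type} [Field N] [NumberField N] [IsGalois ℚ N]
variable {K L : Type} [Field K] [NumberField K] [Field L] [NumberField L] [Algebra K L]
  [IsGalois K L]

/-- the data at a finite level -/
structure Dt (ψ : (L ≃ₐ[K] L) →* ℂˣ) (N : Type) [Field N] [NumberField N] [IsGalois ℚ N] where
  φ : L →+* N
  ρ : Hs (φ.comp (algebraMap K L)) →* (L ≃ₐ[K] L)
  hρ : ∀ (g : Hs (φ.comp (algebraMap K L))) (x : L), (g : N ≃ₐ[ℚ] N) (φ x) = φ (ρ g x)
  j : N →+* ℂ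
  c : Hs (φ.comp (algebraMap K L))
  hc : IsConj j (c : N ≃ₐ[ℚ] N)
  pos : ∀ (J : L →+* N) (t : L ≃ₐ[K] L), IsConj (j.comp J) t →
    J.comp (algebraMap K L) = φ.comp (algebraMap K L) → ψ t = 1
  neg : ∀ (J : L →+* N) (t : L ≃ₐ[K] L), IsConj (j.comp J) t →
    J.comp (algebraMap K L) ≠ φ.comp (algebraMap K L) → ψ t = -1

lemma exists_Dt {ψ : (L ≃ₐ[K] L) →* ℂˣ} (hψ : Mix ψ) (φ : L →+* N) : Nonempty (Dt ψ N) := by
  obtain ⟨ρ, hρ⟩ := exists_rho (K := K) φ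
  obtain ⟨τ, hτ⟩ := hψ.exists_place
  obtain ⟨j, hj⟩ : ∃ j : N →+* ℂ, j.comp (φ.comp (algebraMap K L)) = τ := by
    let : Algebra K N := (φ.comp (algebraMap K L)).toAlgebra
    have : IsScalarTower ℚ K N := IsScalarTower.of_algebraMap_eq' (RingHom.ext fun x => by simp)
    have : Algebra.IsAlgebraic K N := Algebra.IsAlgebraic.tower_top (K := ℚ) K
    exact ⟨ComplexEmbedding.lift N τ, ComplexEmbedding.lift_comp_algebraMap N _⟩
  obtain ⟨c, hc⟩ := exists_conj (K := ℚ) (φ := j) (by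
    rw [ComplexEmbedding.isReal_iff]
    ext x
    simp)
  refine ⟨⟨φ, ρ, hρ, j, ⟨c, conj_mem_Hs hψ.real _ hc⟩, hc, fun J t h h1 => ?_, fun J t h h1 => ?_⟩⟩
  · refine (hτ _ t h).1 ?_
    rw [← hj, ← h1]
    rfl
  · refine (hτ _ t h).2 fun h2 => h1 ?_
    rw [← hj] at h2
    ext k
    apply j.injective
    exact RingHom.congr_fun h2 k

variable {ψ : (L ≃ₐ[K] L) →* ℂˣ}

/-- the group -/
noncomputable def Dt.S (D : Dt ψ N) : Subgroup (N ≃ₐ[ℚ] N) := Hs (D.φ.comp (algebraMap K L))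

/-- the character -/
noncomputable def Dt.θ (D : Dt ψ N) : D.S →* ℂˣ := ψ.comp D.ρ

/-- the complex conjugation -/
noncomputable def Dt.z (D : Dt ψ N) : D.S := D.c

lemma Dt.rl (D : Dt ψ N) (s : D.S) : Rl s D.φ (D.ρ s) := fun x => D.hρ s x

lemma Dt.θ_eq (D : Dt ψ N) {s : D.S} {h : L ≃ₐ[K] L} (hs : Rl s D.φ h) : D.θ s = ψ h := by
  rw [Rl_unique _ hs (D.rl s)]
  rfl

/-- a complex conjugation -/
lemma rl_conj {S : Subgroup (N ≃ₐ[ℚ] N)} {F E : Type} [Field F] [Field E] [Algebra F E] {s : S}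
    {j : N →+* ℂ} (hs : IsConj j (s : N ≃ₐ[ℚ] N)) {J : E →+* N} {h : E ≃ₐ[F] E} (hh : Rl s J h) :
    IsConj (j.comp J) h := by
  ext x
  change star (j (J x)) = j (J (h x))
  rw [← hh x, hs.eq]

lemma Dt.θ_z (D : Dt ψ N) : D.θ D.z = 1 := D.pos D.φ _ (rl_conj D.hc (D.rl D.c)) rfl

/-- the conjugates of the complex conjugation -/
lemma Dt.θ_conj (D : Dt ψ N) {g : N ≃ₐ[ℚ] N} (hg : g ∉ D.S) {s : D.S}
    (hs : (s : N ≃ₐ[ℚ] N) = g * D.z * g⁻¹) : D.θ s = -1 := by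
  have h1 : IsConj (D.j.comp ((g⁻¹ : N ≃ₐ[ℚ] N) : N →+* N)) (s : N ≃ₐ[ℚ] N) := by
    have h2 := D.hc.comp g⁻¹
    rw [hs]
    rw [inv_inv] at h2
    exact h2
  have h3 := rl_conj h1 (D.rl s)
  have h4 : (D.j.comp ((g⁻¹ : N ≃ₐ[ℚ] N) : N →+* N)).comp D.φ
      = D.j.comp (((g⁻¹ : N ≃ₐ[ℚ] N) : N →+* N).comp D.φ) := rfl
  rw [h4] at h3
  refine D.neg _ _ h3 fun h5 => hg ?_
  have h6 : g⁻¹ ∈ Hs (D.φ.comp (algebraMap K L)) := mem_Hs.mpr fun k => RingHom.congr_fun h5 k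
  exact inv_mem_iff.mp h6

lemma Dt.surj (D : Dt ψ N) (g₀ : L ≃ₐ[K] L) : ∃ y : D.S, D.ρ y = g₀ := by
  obtain ⟨t, ht⟩ := exists_aut D.φ (D.φ.comp (g₀ : L →+* L))
  have htH : t ∈ D.S := by
    change t ∈ Hs _
    rw [mem_Hs]
    intro k
    change t (D.φ (algebraMap K L k)) = D.φ (algebraMap K L k)
    rw [ht]
    change D.φ (g₀ (algebraMap K L k)) = _
    rw [AlgEquiv.commutes]
  refine ⟨⟨t, htH⟩, ?_⟩
  ext x
  apply D.φ.injective
  exact (D.rl ⟨t, htH⟩ x).symm.trans (ht x)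

/-- **The value at the character itself.** -/
theorem Dt.ne (D : Dt ψ N) (hr : IsTotallyReal K) (h2 : ∃ g, ψ g ^ 2 ≠ 1) :
    FN D.S (wd D.θ) K L (lc ψ) ≠ 0 := by
  classical
  have key : ∀ J : L →+* N, ∑ s : D.S, wd D.θ s * Dd (lc ψ) J s
      = if J.comp (algebraMap K L) = D.φ.comp (algebraMap K L) then (Fintype.card D.S : ℂ)
        else 0 := by
    intro J
    split_ifs with hJ
    · obtain ⟨g, hg⟩ := exists_gal (K := K) D.φ J hJ.symm
      have h3 : ∀ s : D.S, Dd (lc ψ) J s = ((D.θ s : ℂˣ) : ℂ) := by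
        intro s
        have h4 : Rl s J (g⁻¹ * D.ρ s * g) := by
          intro x
          rw [hg, hg, D.rl s]
          change _ = D.φ (g (g⁻¹ (D.ρ s (g x))))
          rw [show g (g⁻¹ (D.ρ s (g x))) = D.ρ s (g x) from AlgEquiv.apply_symm_apply g _]
        rw [Dd_eq D.S (lc ψ) h4]
        change ((ψ (g⁻¹ * D.ρ s * g) : ℂˣ) : ℂ) = ((ψ (D.ρ s) : ℂˣ) : ℂ)
        congr 1
        rw [map_mul, map_mul, map_inv, mul_comm, ← mul_assoc, mul_inv_cancel, one_mul]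
      have h4 : ∀ s : D.S, wd D.θ s * Dd (lc ψ) J s
          = 1 - ((D.θ s : ℂˣ) : ℂ) * ((D.θ s : ℂˣ) : ℂ) := by
        intro s
        rw [h3, wd, sub_mul, Units.inv_mul]
      rw [Finset.sum_congr rfl fun s _ => h4 s, Finset.sum_sub_distrib]
      obtain ⟨g₀, hg₀⟩ := h2
      obtain ⟨y, hy⟩ := D.surj g₀
      rw [sum_shift (f := fun s : D.S => ((D.θ s : ℂˣ) : ℂ) * ((D.θ s : ℂˣ) : ℂ)) y
        (u := ((D.θ y : ℂˣ) : ℂ) * ((D.θ y : ℂˣ) : ℂ))]
      · simp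
      · intro s
        rw [map_mul, Units.val_mul]
        ring
      · intro h5
        apply hg₀
        rw [← hy, sq]
        apply Units.ext
        rw [Units.val_mul, Units.val_one]
        exact h5
    · obtain ⟨h0, h3, h4⟩ := exists_h0 (F := K) (E := L) hr (z := D.z) D.hc J
      have h5 : ψ h0 = -1 := D.neg J h0 h4 hJ
      refine sum_shift (f := fun s => wd D.θ s * Dd (lc ψ) J s) D.z (u := -1) (fun s => ?_)
        (by norm_num)
      rw [wd_mul D.θ (by rw [D.θ_z, one_mul]), D.θ_z,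
        Dd_mul h3 (v := -1) (fun g => by simp [lc, h5])]
      simp
  rw [FN]
  refine mul_ne_zero (inv_ne_zero (mul_ne_zero (by exact_mod_cast Nat.card_pos.ne')
    (by exact_mod_cast Nat.card_pos.ne'))) ?_
  have h3 : ∑ s : D.S, wd D.θ s * ∑ J : L →+* N, Dd (lc ψ) J s
      = ∑ J : L →+* N, ∑ s : D.S, wd D.θ s * Dd (lc ψ) J s := by
    rw [Finset.sum_comm]
    exact Finset.sum_congr rfl fun s _ => Finset.mul_sum _ _ _
  rw [h3, Finset.sum_congr rfl fun J _ => key J, ← Finset.sum_filter, Finset.sum_const,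
    nsmul_eq_mul]
  refine mul_ne_zero ?_ (by exact_mod_cast Fintype.card_ne_zero)
  have h4 : (Finset.univ.filter fun J : L →+* N =>
      J.comp (algebraMap K L) = D.φ.comp (algebraMap K L)).card ≠ 0 :=
    Finset.card_ne_zero.mpr ⟨D.φ, by simp⟩
  exact_mod_cast h4

/-- the character over an imaginary quadratic field -/
theorem imq {S : Subgroup (N ≃ₐ[ℚ] N)} {θ : S →* ℂˣ} {F E : Type} [Field F] [NumberField F]
    [Field E] [NumberField E] [Algebra F E] [IsGalois F E] {ξ : (E ≃ₐ[F] E) →* ℂˣ}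
    (h : FN S (wd θ) F E (lc ξ) ≠ 0) : ∃ (J : E →+* N) (ξ' : (E ≃ₐ[F] E) →* ℂˣ),
      (ξ' = ξ ∨ ξ' = ξ⁻¹) ∧ ∀ (s : S) (g : E ≃ₐ[F] E), Rl s J g → θ s = ξ' g := by
  classical
  obtain ⟨J, hJ⟩ : ∃ J : E →+* N, ∑ s : S, wd θ s * Dd (lc ξ) J s ≠ 0 := by
    by_contra hcon
    push Not at hcon
    apply h
    have h3 : ∑ s : S, wd θ s * ∑ J : E →+* N, Dd (lc ξ) J s
        = ∑ J : E →+* N, ∑ s : S, wd θ s * Dd (lc ξ) J s := by
      rw [Finset.sum_comm]
      exact Finset.sum_congr rfl fun s _ => Finset.mul_sum _ _ _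
    rw [FN, h3, Finset.sum_eq_zero fun J _ => hcon J, mul_zero]
  refine ⟨J, ?_⟩
  by_contra hcon
  have h1 : ¬ ∀ (s : S) (g : E ≃ₐ[F] E), Rl s J g → θ s = ξ g := fun h1 =>
    hcon ⟨ξ, Or.inl rfl, h1⟩
  have h2 : ¬ ∀ (s : S) (g : E ≃ₐ[F] E), Rl s J g → θ s = ξ⁻¹ g := fun h1 =>
    hcon ⟨ξ⁻¹, Or.inr rfl, h1⟩
  push Not at h1 h2
  obtain ⟨z, g, hz, hzg⟩ := h1
  obtain ⟨z', g', hz', hzg'⟩ := h2
  apply hJ
  have h3 : ∀ s : S, wd θ s * Dd (lc ξ) J s
      = (((θ s)⁻¹ : ℂˣ) : ℂ) * Dd (lc ξ) J s - ((θ s : ℂˣ) : ℂ) * Dd (lc ξ) J s := fun s => by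
    rw [wd, sub_mul]
  rw [Finset.sum_congr rfl fun s _ => h3 s, Finset.sum_sub_distrib]
  rw [sum_shift (f := fun s => (((θ s)⁻¹ : ℂˣ) : ℂ) * Dd (lc ξ) J s) z
      (u := (((θ z)⁻¹ : ℂˣ) : ℂ) * ((ξ g : ℂˣ) : ℂ)),
    sum_shift (f := fun s => ((θ s : ℂˣ) : ℂ) * Dd (lc ξ) J s) z'
      (u := ((θ z' : ℂˣ) : ℂ) * ((ξ g' : ℂˣ) : ℂ)), sub_zero]
  · intro s
    rw [map_mul, Units.val_mul, Dd_mul hz' (v := ((ξ g' : ℂˣ) : ℂ)) (fun x => by simp [lc])]
    ring
  · intro h4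
    apply hzg'
    have h5 : θ z' * ξ g' = 1 := Units.ext (by rw [Units.val_mul, Units.val_one]; exact h4)
    rw [MonoidHom.inv_apply]
    exact eq_inv_of_mul_eq_one_left h5
  · intro s
    rw [map_mul, mul_inv, Units.val_mul, Dd_mul hz (v := ((ξ g : ℂˣ) : ℂ)) (fun x => by simp [lc])]
    ring
  · intro h4
    apply hzg
    have h5 : (θ z)⁻¹ * ξ g = 1 := Units.ext (by rw [Units.val_mul, Units.val_one]; exact h4)
    exact (inv_mul_eq_one.mp h5)

end lev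

end Pool.Agent.W2helper72.SK
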