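import Mathlib
import Pool.Agent.W2helper72.SK.Val
import Pool.Agent.W2helper73.SO.Base

/-!
# Equality of the invariants
-/

set_option autoImplicit false
set_option linter.unusedSectionVars false

namespace Pool.Agent.W2helper72.SK

open NumberField NumberField.ComplexEmbedding Pool.Agent.K4H74.ST Pool.Agent.W2helper73.SO
  Pool.Agent.R389

section ext

variable {N : Type} [Field N] [NumberField N] [IsGalois ℚ N]
variable {K L : Type} [Field K] [NumberField K] [Field L] [NumberField L] [Algebra K L]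
  [IsGalois K L]

open Classical in
/-- the extension by zero -/
noncomputable def ex {S : Subgroup (N ≃ₐ[ℚ] N)} (ρ : S →* (L ≃ₐ[K] L)) (χ : (L ≃ₐ[K] L) → ℂ)
    (y : N ≃ₐ[ℚ] N) : ℂ := if h : y ∈ S then χ (ρ ⟨y, h⟩) else 0

lemma ex_mem {S : Subgroup (N ≃ₐ[ℚ] N)} (ρ : S →* (L ≃ₐ[K] L)) (χ : (L ≃ₐ[K] L) → ℂ)
    {y : N ≃ₐ[ℚ] N} (h : y ∈ S) : ex ρ χ y = χ (ρ ⟨y, h⟩) := dif_pos h

lemma ex_not {S : Subgroup (N ≃ₐ[ℚ] N)} (ρ : S →* (L ≃ₐ[K] L)) (χ : (L ≃ₐ[K] L) → ℂ)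
    {y : N ≃ₐ[ℚ] N} (h : y ∉ S) : ex ρ χ y = 0 := dif_neg h

/-- every value of an invariant is a value over `ℚ` -/
lemma val_ext {M : Type} [CommGroup M] (A : ArtinInvariant M) (φ : L →+* N)
    (ρ : Hs (φ.comp (algebraMap K L)) →* (L ≃ₐ[K] L))
    (hρ : ∀ (g : Hs (φ.comp (algebraMap K L))) (x : L), (g : N ≃ₐ[ℚ] N) (φ x) = φ (ρ g x))
    {χ : (L ≃ₐ[K] L) → ℂ} (hχ : IsChar χ) :
    A.val K L χ = A.val ℚ N (fun g => (Nat.card (Hs (φ.comp (algebraMap K L))) : ℂ)⁻¹ *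
      ∑ x : N ≃ₐ[ℚ] N, ex ρ χ (x⁻¹ * g * x)) := by
  classical
  let : Algebra L N := φ.toAlgebra
  let : Algebra K N := (φ.comp (algebraMap K L)).toAlgebra
  have : IsScalarTower K L N := IsScalarTower.of_algebraMap_eq' rfl
  have : IsScalarTower ℚ K N := IsScalarTower.of_algebraMap_eq' (RingHom.ext fun x => by simp)
  have : IsGalois K N := IsGalois.tower_top_of_isGalois ℚ K N
  have hN : IsChar (fun g : N ≃ₐ[K] N => χ (AlgEquiv.restrictNormalHom L g)) :=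
    char_comp hχ (AlgEquiv.restrictNormalHom L)
  rw [← A.val_infl K L N χ hχ, ← A.val_ind ℚ K N _ hN]
  congr 1
  funext g
  rw [indChar_sum]
  let e : Hs (φ.comp (algebraMap K L)) ≃ (N ≃ₐ[K] N) :=
    { toFun := fun y => AlgEquiv.ofRingEquiv (f := ((y : N ≃ₐ[ℚ] N) : N ≃+* N))
        (fun k => mem_Hs.mp y.2 k)
      invFun := fun h => ⟨h.restrictScalars ℚ, mem_Hs.mpr fun k => h.commutes k⟩
      left_inv := fun y => Subtype.ext (AlgEquiv.ext fun x => rfl)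
      right_inv := fun h => AlgEquiv.ext fun x => rfl }
  have he : ∀ y : Hs (φ.comp (algebraMap K L)), (e y).restrictScalars ℚ = (y : N ≃ₐ[ℚ] N) :=
    fun y => AlgEquiv.ext fun x => rfl
  rw [Nat.card_congr e]
  congr 1
  refine Finset.sum_congr rfl fun x _ => ?_
  by_cases hx : x⁻¹ * g * x ∈ Hs (φ.comp (algebraMap K L))
  · rw [ex_mem ρ χ hx, Finset.sum_eq_single (e ⟨_, hx⟩), if_pos (he _)]
    · congr 1
      ext y
      apply φ.injective
      have h1 := res_apply (K := K) (L := L) (N := N) (e ⟨_, hx⟩) y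
      rw [← hρ]
      exact h1
    · intro h _ hne
      rw [if_neg]
      intro h1
      apply hne
      have h2 : (e.symm h : N ≃ₐ[ℚ] N) = x⁻¹ * g * x := h1
      rw [← e.apply_symm_apply h]
      congr 1
      exact Subtype.ext h2
    · intro h
      exact absurd (Finset.mem_univ _) h
  · rw [ex_not ρ χ hx]
    refine Finset.sum_eq_zero fun h _ => if_neg fun h1 => hx ?_
    rw [← h1]
    exact mem_Hs.mpr fun k => h.commutes k

end ext

section eq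

variable {N : Type} [Field N] [NumberField N] [IsGalois ℚ N]
variable {K L : Type} [Field K] [NumberField K] [Field L] [NumberField L] [Algebra K L]
  [IsGalois K L]
variable {F E : Type} [Field F] [NumberField F] [Field E] [NumberField E] [Algebra F E]
  [IsGalois F E]

/-- **Equality of all the invariants.** -/
theorem val_eq {ψ : (L ≃ₐ[K] L) →* ℂˣ} (hψ : Mix ψ) (D : Dt ψ N) (hF : Module.finrank ℚ F = 2)
    (hF' : IsTotallyComplex F) (ξ : (E ≃ₐ[F] E) →* ℂˣ) (J : E →+* N)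
    (h : ∀ (s : D.S) (g : E ≃ₐ[F] E), Rl s J g → D.θ s = ξ g) {M : Type} [CommGroup M]
    (A : ArtinInvariant M) : A.val K L (lc ψ) = A.val F E (lc ξ) := by
  classical
  obtain ⟨ρ', hρ'⟩ := exists_rho (K := F) J
  rw [val_ext A D.φ D.ρ D.hρ (IsChar.lc ψ), val_ext A J ρ' hρ' (IsChar.lc ξ)]
  congr 1
  funext g
  have hi : (Hs (D.φ.comp (algebraMap K L))).index = 2 := by rw [index_Hs, hψ.two]
  have hi' : (Hs (J.comp (algebraMap F E))).index = 2 := by rw [index_Hs, hF]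
  have hcard : Nat.card (Hs (D.φ.comp (algebraMap K L)))
      = Nat.card (Hs (J.comp (algebraMap F E))) := by
    have h1 := card_Hs (D.φ.comp (algebraMap K L))
    have h2 := card_Hs (J.comp (algebraMap F E))
    rw [hψ.two] at h1
    rw [hF] at h2
    omega
  rw [hcard]
  congr 1
  have hmul : ∀ {S : Subgroup (N ≃ₐ[ℚ] N)} {K' L' : Type} [Field K'] [NumberField K'] [Field L']
      [NumberField L'] [Algebra K' L'] [IsGalois K' L'] (r : S →* (L' ≃ₐ[K'] L'))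
      (η : (L' ≃ₐ[K'] L') →* ℂˣ), ∀ x ∈ S, ∀ y ∈ S,
      ex r (lc η) (x * y) = ex r (lc η) x * ex r (lc η) y := by
    intro S K' L' _ _ _ _ _ _ r η x hx y hy
    rw [ex_mem r _ hx, ex_mem r _ hy, ex_mem r _ (S.mul_mem hx hy)]
    have h1 : (⟨x * y, S.mul_mem hx hy⟩ : S) = ⟨x, hx⟩ * ⟨y, hy⟩ := rfl
    rw [h1, map_mul]
    simp [lc]
  have hne : ∀ {S : Subgroup (N ≃ₐ[ℚ] N)} {K' L' : Type} [Field K'] [NumberField K'] [Field L']
      [NumberField L'] [Algebra K' L'] [IsGalois K' L'] (r : S →* (L' ≃ₐ[K'] L'))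
      (η : (L' ≃ₐ[K'] L') →* ℂˣ), ∀ x ∈ S, ex r (lc η) x ≠ 0 := by
    intro S K' L' _ _ _ _ _ _ r η x hx
    rw [ex_mem r _ hx]
    exact Units.ne_zero _
  refine sum_eq hi hi' (fun g hg => ex_not _ _ hg) (fun g hg => ex_not _ _ hg)
    (hmul D.ρ ψ) (hmul ρ' ξ) (hne ρ' ξ) (hne D.ρ ψ) ?_ (c := (D.z : N ≃ₐ[ℚ] N)) D.z.2
    (conj_notMem_Hs hF' _ D.hc) ?_ g
  · intro x hx hx'
    rw [ex_mem _ _ hx, ex_mem _ _ hx']
    have h1 := h ⟨x, hx⟩ (ρ' ⟨x, hx'⟩) (fun y => hρ' ⟨x, hx'⟩ y)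
    exact congrArg (fun u : ℂˣ => (u : ℂ)) h1
  · intro g hg
    have h1 : g * D.z * g⁻¹ ∈ Hs (D.φ.comp (algebraMap K L)) :=
      (Subgroup.normal_of_index_eq_two hi).conj_mem _ D.z.2 g
    have h2 : D.θ ⟨_, h1⟩ = -1 := D.θ_conj hg rfl
    have h3 : D.θ D.z = 1 := D.θ_z
    have h4 : ex D.ρ (lc ψ) (g * D.z * g⁻¹) = ((D.θ ⟨_, h1⟩ : ℂˣ) : ℂ) := ex_mem _ _ h1
    have h5 : ex D.ρ (lc ψ) (D.z : N ≃ₐ[ℚ] N) = ((D.θ D.z : ℂˣ) : ℂ) := ex_mem _ _ D.z.2
    rw [h4, h5, h2, h3]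
    simp

end eq

end Pool.Agent.W2helper72.SK
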