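import Mathlib

/-!
# Characters of subgroups of index two
-/

set_option autoImplicit false

namespace Pool.Agent.W2helper72.SK

section ext

variable {G A : Type} [Group G] [CommGroup A] {S : Subgroup G}

/-- extension of an invariant character from a subgroup of index two -/
theorem ext_hom (hS : S.index = 2) {g : G} (hg : g ∉ S) (f : S →* A)
    (hinv : ∀ s s' : S, (s' : G) = g * s * g⁻¹ → f s' = f s) {u : A} {gg : S}
    (hgg : (gg : G) = g * g) (hu : u * u = f gg) :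
    ∃ F : G →* A, (∀ s : S, F s = f s) ∧ F g = u := by
  classical
  have nS : S.Normal := Subgroup.normal_of_index_eq_two hS
  have mS : ∀ {x y : G}, x * y ∈ S ↔ (x ∈ S ↔ y ∈ S) := fun {x y} =>
    Subgroup.mul_mem_iff_of_index_two hS
  let f' : G → A := fun x => if h : x ∈ S then f ⟨x, h⟩ else 1
  have hf : ∀ s : S, f' s = f s := fun s => dif_pos s.2
  have f1 : ∀ {x y : G}, x ∈ S → y ∈ S → f' (x * y) = f' x * f' y := by
    intro x y hx hy
    rw [show f' (x * y) = f (⟨x, hx⟩ * ⟨y, hy⟩) from hf (⟨x, hx⟩ * ⟨y, hy⟩), map_mul,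
      ← hf ⟨x, hx⟩, ← hf ⟨y, hy⟩]
  have f2 : ∀ {x : G}, x ∈ S → f' (g * x * g⁻¹) = f' x := by
    intro x hx
    rw [show f' (g * x * g⁻¹) = f ⟨_, nS.conj_mem x hx g⟩ from hf ⟨_, nS.conj_mem x hx g⟩,
      show f' x = f ⟨x, hx⟩ from hf ⟨x, hx⟩]
    exact hinv _ _ rfl
  have f3 : f' (g * g) = u * u := by rw [← hgg, hf, hu]
  have gS : ∀ {x : G}, x ∉ S → g⁻¹ * x ∈ S := fun hx =>
    mS.mpr ⟨fun h => absurd (S.inv_mem_iff.mp h) hg, fun h => absurd h hx⟩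
  have f4 : ∀ {x : G}, x ∈ S → f' (g⁻¹ * x * g) = f' x := by
    intro x hx
    have h1 : g⁻¹ * x * g ∈ S := by
      have := nS.conj_mem x hx g⁻¹
      rwa [inv_inv] at this
    rw [← f2 h1]
    congr 1
    group
  let F : G → A := fun x => if x ∈ S then f' x else u * f' (g⁻¹ * x)
  have F1 : ∀ {x : G}, x ∈ S → F x = f' x := fun h => if_pos h
  have F2 : ∀ {x : G}, x ∉ S → F x = u * f' (g⁻¹ * x) := fun h => if_neg h
  refine ⟨MonoidHom.mk' F fun x y => ?_, fun s => (F1 s.2).trans (hf s), ?_⟩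
  · by_cases hx : x ∈ S <;> by_cases hy : y ∈ S
    · rw [F1 hx, F1 hy, F1 (S.mul_mem hx hy), f1 hx hy]
    · rw [F1 hx, F2 hy, F2 (fun h => hy ((mS.mp h).mp hx))]
      have h1 : g⁻¹ * (x * y) = (g⁻¹ * x * g) * (g⁻¹ * y) := by group
      have h2 : g⁻¹ * x * g ∈ S := by
        have := nS.conj_mem x hx g⁻¹
        rwa [inv_inv] at this
      rw [h1, f1 h2 (gS hy), f4 hx]
      exact mul_left_comm _ _ _
    · rw [F2 hx, F1 hy, F2 (fun h => hx ((mS.mp h).mpr hy)), ← mul_assoc g⁻¹, f1 (gS hx) hy,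
        mul_assoc]
    · have hxy : x * y ∈ S := mS.mpr ⟨fun h => absurd h hx, fun h => absurd h hy⟩
      rw [F2 hx, F2 hy, F1 hxy]
      have h1 : x * y = (g * (g⁻¹ * x) * g⁻¹) * ((g * g) * (g⁻¹ * y)) := by group
      have h2 : g * g ∈ S := mS.mpr Iff.rfl
      rw [h1, f1 (nS.conj_mem _ (gS hx) g) (S.mul_mem h2 (gS hy)), f1 h2 (gS hy), f2 (gS hx), f3]
      ac_rfl
  · change F g = u
    have h1 : f' 1 = 1 := by
      rw [show (1 : G) = ((1 : S) : G) from rfl, hf, map_one]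
    rw [F2 hg, inv_mul_cancel, h1, mul_one]

end ext

section two

variable {G : Type} [Group G] {S T : Subgroup G}

/-- the square of a character which agrees with a character of another subgroup -/
theorem grp_sq (hS : S.index = 2) (hT : T.index = 2) (θ : S →* ℂˣ) (ξ : T →* ℂˣ)
    (hab : ∀ x (h : x ∈ S) (h' : x ∈ T), θ ⟨x, h⟩ = ξ ⟨x, h'⟩) {c : G} (hcS : c ∈ S) (hcT : c ∉ T)
    (σ : G) (s s' : S) (h : (s' : G) = σ * s * σ⁻¹) : θ s' ^ 2 = θ s ^ 2 := by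
  have nS : S.Normal := Subgroup.normal_of_index_eq_two hS
  have nT : T.Normal := Subgroup.normal_of_index_eq_two hT
  have mS : ∀ {x y : G}, x * y ∈ S ↔ (x ∈ S ↔ y ∈ S) := fun {x y} =>
    Subgroup.mul_mem_iff_of_index_two hS
  have mT : ∀ {x y : G}, x * y ∈ T ↔ (x ∈ T ↔ y ∈ T) := fun {x y} =>
    Subgroup.mul_mem_iff_of_index_two hT
  obtain ⟨t, htT, htS⟩ : ∃ t ∈ T, t ∉ S := by
    by_contra hcon
    push Not at hcon
    have h1 : T ≤ S := hcon
    have h2 := Subgroup.relIndex_mul_index h1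
    rw [hS, hT] at h2
    have h3 : T.relIndex S = 1 := by omega
    exact hcT (Subgroup.relIndex_eq_one.mp h3 hcS)
  have inner : ∀ (a s s' : S), (s' : G) = a * s * (a : G)⁻¹ → θ s' = θ s := by
    intro a s s' h
    have h1 : s' = a * s * a⁻¹ := Subtype.ext h
    rw [h1, map_mul, map_mul, map_inv, mul_comm, ← mul_assoc, inv_mul_cancel, one_mul]
  have hA : ∀ (s s' : S), (s : G) ∈ T → (s' : G) = t * s * t⁻¹ → θ s' = θ s := by
    intro s s' hs h
    have hs' : (s' : G) ∈ T := by rw [h]; exact nT.conj_mem _ hs t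
    have h1 := hab _ s.2 hs
    have h2 := hab _ s'.2 hs'
    have h3 : (⟨s', hs'⟩ : T) = ⟨t, htT⟩ * ⟨s, hs⟩ * ⟨t, htT⟩⁻¹ := Subtype.ext h
    rw [h3, map_mul, map_mul, map_inv, mul_comm, ← mul_assoc, inv_mul_cancel, one_mul] at h2
    exact h2.trans h1.symm
  have hB : ∀ (s s' : S), (s' : G) = t * s * t⁻¹ → θ s' ^ 2 = θ s ^ 2 := by
    intro s s' h
    rw [sq, sq, ← map_mul, ← map_mul]
    refine hA _ _ (mT.mpr Iff.rfl) ?_
    rw [Subgroup.coe_mul, Subgroup.coe_mul, h]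
    group
  by_cases hσ : σ ∈ S
  · rw [inner ⟨σ, hσ⟩ s s' h]
  · have h1 : σ * t⁻¹ ∈ S := mS.mpr ⟨fun h => absurd h hσ, fun h => absurd (S.inv_mem_iff.mp h) htS⟩
    have h2 : t * s * t⁻¹ ∈ S := nS.conj_mem _ s.2 t
    rw [inner ⟨_, h1⟩ ⟨_, h2⟩ s' (by rw [h]; group)]
    exact hB s ⟨_, h2⟩ rfl

/-- existence of the other subgroup -/
theorem grp_ext (hS : S.index = 2) (θ : S →* ℂˣ)
    (hsq : ∀ (σ : G) (s s' : S), (s' : G) = σ * s * σ⁻¹ → θ s' ^ 2 = θ s ^ 2) (c : S)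
    (hc : θ c = 1) (hc' : ∀ g, g ∉ S → ∀ c' : S, (c' : G) = g * c * g⁻¹ → θ c' = -1) :
    ∃ (T : Subgroup G) (ξ : T →* ℂˣ), T.index = 2 ∧ (c : G) ∉ T ∧
      ∀ x (h : x ∈ S) (h' : x ∈ T), θ ⟨x, h⟩ = ξ ⟨x, h'⟩ := by
  classical
  have nS : S.Normal := Subgroup.normal_of_index_eq_two hS
  have mS : ∀ {x y : G}, x * y ∈ S ↔ (x ∈ S ↔ y ∈ S) := fun {x y} =>
    Subgroup.mul_mem_iff_of_index_two hS
  obtain ⟨g, hg⟩ : ∃ g, g ∉ S := by
    by_contra hcon
    push Not at hcon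
    rw [Subgroup.eq_top_iff' _ |>.mpr hcon, Subgroup.index_top] at hS
    omega
  have inner : ∀ (a s s' : S), (s' : G) = a * s * (a : G)⁻¹ → θ s' = θ s := by
    intro a s s' h
    have h1 : s' = a * s * a⁻¹ := Subtype.ext h
    rw [h1, map_mul, map_mul, map_inv, mul_comm, ← mul_assoc, inv_mul_cancel, one_mul]
  let κ : S ≃* S := MulAut.conjNormal g
  have hκ : ∀ s : S, (κ s : G) = g * s * g⁻¹ := fun s => MulAut.conjNormal_apply g s
  let η : S →* ℂˣ := θ.comp κ.toMonoidHom * θ⁻¹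
  have hη : ∀ s, η s = θ (κ s) * (θ s)⁻¹ := fun s => rfl
  have gg : g * g ∈ S := mS.mpr Iff.rfl
  have hκκ : ∀ s, θ (κ (κ s)) = θ s := by
    intro s
    refine inner ⟨g * g, gg⟩ s _ ?_
    rw [hκ, hκ]
    group
  have hη2 : ∀ s, η s * η s = 1 := by
    intro s
    have h1 := hsq g s (κ s) (hκ s)
    rw [hη, mul_mul_mul_comm, ← sq, ← sq, h1, ← mul_pow, mul_inv_cancel, one_pow]
  have hηκ : ∀ s, η (κ s) = η s := by
    intro s
    have h1 : η (κ s) = (η s)⁻¹ := by rw [hη, hη, hκκ, mul_inv, inv_inv, mul_comm]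
    rw [h1]
    exact inv_eq_of_mul_eq_one_left (hη2 s)
  have hηg : η ⟨g * g, gg⟩ = 1 := by
    rw [hη]
    have h1 : κ ⟨g * g, gg⟩ = ⟨g * g, gg⟩ := Subtype.ext (by rw [hκ]; group)
    rw [h1, mul_inv_cancel]
  obtain ⟨F, hF, hFg⟩ := ext_hom hS hg η (fun s s' h => by
    have h1 : s' = κ s := Subtype.ext (by rw [h, hκ])
    rw [h1, hηκ]) (gg := ⟨g * g, gg⟩) rfl (u := 1) (by rw [hηg, one_mul])
  have hF2 : ∀ x, F x = 1 ∨ F x = -1 := by
    intro x
    have h1 : F x * F x = 1 := by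
      by_cases hx : x ∈ S
      · rw [show F x = η ⟨x, hx⟩ from hF ⟨x, hx⟩, hη2]
      · have h2 : g⁻¹ * x ∈ S :=
          mS.mpr ⟨fun h => absurd (S.inv_mem_iff.mp h) hg, fun h => absurd h hx⟩
        have h3 : F (g⁻¹ * x) = F x := by rw [map_mul, map_inv, hFg, inv_one, one_mul]
        rw [← h3, show F (g⁻¹ * x) = η ⟨_, h2⟩ from hF ⟨_, h2⟩, hη2]
    have h5 : ((F x : ℂˣ) : ℂ) * ((F x : ℂˣ) : ℂ) = 1 := by rw [← Units.val_mul, h1, Units.val_one]
    rcases mul_self_eq_one_iff.mp h5 with h6 | h6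
    · left; exact Units.ext h6
    · right; exact Units.ext (by rw [h6]; simp)
  have hne : (-1 : ℂˣ) ≠ 1 := by
    intro h
    have h7 : (((-1 : ℂˣ)) : ℂ) = ((1 : ℂˣ) : ℂ) := by rw [h]
    norm_num at h7
  have hFc : F c = -1 := by
    rw [hF, hη, hc, hc' g hg (κ c) (hκ c), inv_one, mul_one]
  have hT : F.ker.index = 2 := by
    rw [Subgroup.index_eq_two_iff]
    refine ⟨c, fun b => ?_⟩
    rw [MonoidHom.mem_ker, MonoidHom.mem_ker, map_mul, hFc]
    rcases hF2 b with h | h <;> rw [h] <;> simp [hne]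
  have hcT : (c : G) ∉ F.ker := by
    rw [MonoidHom.mem_ker, hFc]
    exact hne
  have hgT : g ∈ F.ker := hFg
  let S' : Subgroup F.ker := S.subgroupOf F.ker
  have hS' : S'.index = 2 := by
    rw [Subgroup.index_eq_two_iff]
    refine ⟨⟨g, hgT⟩, fun b => ?_⟩
    rw [Subgroup.mem_subgroupOf, Subgroup.mem_subgroupOf, Subgroup.coe_mul, mS]
    simp only [hg, iff_false]
    by_cases h : (b : G) ∈ S <;> simp [h]
  let r : S' →* S :=
    { toFun := fun x => ⟨((x : F.ker) : G), x.2⟩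
      map_one' := rfl
      map_mul' := fun _ _ => rfl }
  have hr : ∀ x : S', ((r x : S) : G) = ((x : F.ker) : G) := fun x => rfl
  obtain ⟨u, hu⟩ : ∃ u : ℂˣ, u * u = θ ⟨g * g, gg⟩ := by
    obtain ⟨v, hv⟩ := IsAlgClosed.exists_pow_nat_eq ((θ ⟨g * g, gg⟩ : ℂˣ) : ℂ) (n := 2) (by norm_num)
    have hv0 : v ≠ 0 := by
      rintro rfl
      rw [zero_pow two_ne_zero] at hv
      exact Units.ne_zero _ hv.symm
    refine ⟨Units.mk0 v hv0, Units.ext ?_⟩
    rw [Units.val_mul, Units.val_mk0, ← sq, hv]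
  have hker : ∀ s : S, (s : G) ∈ F.ker → θ (κ s) = θ s := by
    intro s hs
    rw [MonoidHom.mem_ker, hF, hη] at hs
    exact mul_inv_eq_one.mp hs
  have ggT : g * g ∈ F.ker := mul_mem hgT hgT
  obtain ⟨ξ, hξ, -⟩ := ext_hom hS' (g := ⟨g, hgT⟩) (fun h => hg h) (θ.comp r) (fun s s' h => by
    change θ (r s') = θ (r s)
    rw [← hker (r s) (s : F.ker).2]
    congr 1
    apply Subtype.ext
    rw [hκ, hr, hr, h]
    rfl) (gg := ⟨⟨g * g, ggT⟩, gg⟩) rfl (u := u) hu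
  refine ⟨F.ker, ξ, hT, hcT, fun x h h' => ?_⟩
  exact (hξ ⟨⟨x, h'⟩, h⟩).symm

end two

end Pool.Agent.W2helper72.SK
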