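import Mathlib
import Pool.Agent.W2helper72.SK.Eq
import Pool.Agent.W2helper72.SK.Grp2

/-!
# The square of the character
-/

set_option autoImplicit false
set_option linter.unusedSectionVars false

namespace Pool.Agent.W2helper72.SK

open NumberField NumberField.ComplexEmbedding Pool.Agent.K4H74.ST Pool.Agent.W2helper73.SO
  Pool.Agent.R389

section sq

variable {N : Type} [Field N] [NumberField N] [IsGalois ℚ N]
variable {K L : Type} [Field K] [NumberField K] [Field L] [NumberField L] [Algebra K L]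
  [IsGalois K L] {ψ : (L ≃ₐ[K] L) →* ℂˣ}

/-- the square is invariant, finite level -/
def Dt.Sq (D : Dt ψ N) : Prop := ∀ (σ : N ≃ₐ[ℚ] N) (s s' : D.S),
  (s' : N ≃ₐ[ℚ] N) = σ * s * σ⁻¹ → D.θ s' ^ 2 = D.θ s ^ 2

/-- the square is invariant -/
def SqInv (ψ : (L ≃ₐ[K] L) →* ℂˣ) : Prop := ∀ (τ : L ≃ₐ[ℚ] L) (g g' : L ≃ₐ[K] L),
  (∀ x, g' (τ x) = τ (g x)) → ψ g' ^ 2 = ψ g ^ 2

lemma Dt.sqInv (D : Dt ψ N) (h : D.Sq) : SqInv ψ := by
  intro τ g g' hg
  obtain ⟨σ, hσ⟩ := exists_aut D.φ (D.φ.comp (τ : L →+* L))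
  obtain ⟨s, hs⟩ := D.surj g
  have h1 : ∀ x, (σ * s * σ⁻¹ : N ≃ₐ[ℚ] N) (D.φ x) = D.φ (g' x) := by
    intro x
    obtain ⟨y, rfl⟩ := τ.surjective x
    have h2 : D.φ (τ y) = σ (D.φ y) := (hσ y).symm
    rw [hg, h2]
    change σ ((s : N ≃ₐ[ℚ] N) (σ⁻¹ (σ (D.φ y)))) = _
    rw [show σ⁻¹ (σ (D.φ y)) = D.φ y from AlgEquiv.symm_apply_apply σ _]
    have h3 : (s : N ≃ₐ[ℚ] N) (D.φ y) = D.φ (g y) := by
      rw [← hs]
      exact D.rl s y
    rw [h3]
    exact hσ (g y)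
  have h2 : (σ * s * σ⁻¹ : N ≃ₐ[ℚ] N) ∈ D.S := by
    refine mem_Hs.mpr fun k => ?_
    change (σ * s * σ⁻¹ : N ≃ₐ[ℚ] N) (D.φ (algebraMap K L k)) = D.φ (algebraMap K L k)
    rw [h1, AlgEquiv.commutes]
  have h3 := h σ s ⟨_, h2⟩ rfl
  rw [D.θ_eq (s := ⟨_, h2⟩) (h := g') h1, D.θ_eq (D.rl s), hs] at h3
  exact h3

lemma Dt.sq_of [IsGalois ℚ L] (D : Dt ψ N) (h : SqInv ψ) : D.Sq := by
  intro σ s s' hs
  obtain ⟨τ, hτ⟩ := exists_gal (K := ℚ) D.φ ((σ : N →+* N).comp D.φ) (RingHom.ext fun x => by simp)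
  refine h τ (D.ρ s) (D.ρ s') fun x => ?_
  apply D.φ.injective
  have h1 := D.rl s' (τ x)
  have h2 : σ (D.φ x) = D.φ (τ x) := hτ x
  rw [← h1, ← h2, hs]
  change σ ((s : N ≃ₐ[ℚ] N) (σ⁻¹ (σ (D.φ x)))) = _
  rw [show σ⁻¹ (σ (D.φ x)) = D.φ x from AlgEquiv.symm_apply_apply σ _, D.rl s x]
  exact hτ (D.ρ s x)

variable {F E : Type} [Field F] [NumberField F] [Field E] [NumberField E] [Algebra F E]
  [IsGalois F E]

lemma Dt.sq_of_imq (hK : Module.finrank ℚ K = 2) (D : Dt ψ N) (hF : Module.finrank ℚ F = 2)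
    (hF' : IsTotallyComplex F) (ξ : (E ≃ₐ[F] E) →* ℂˣ) (J : E →+* N)
    (h : ∀ (s : D.S) (g : E ≃ₐ[F] E), Rl s J g → D.θ s = ξ g) : D.Sq := by
  obtain ⟨ρ', hρ'⟩ := exists_rho (K := F) J
  have hi : D.S.index = 2 := by
    change (Hs (D.φ.comp (algebraMap K L))).index = 2
    rw [index_Hs, hK]
  have hi' : (Hs (J.comp (algebraMap F E))).index = 2 := by rw [index_Hs, hF]
  intro σ s s' hs
  exact grp_sq hi hi' D.θ (ξ.comp ρ') (fun x hx hx' => h ⟨x, hx⟩ (ρ' ⟨x, hx'⟩)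
    (fun y => hρ' ⟨x, hx'⟩ y)) D.z.2 (conj_notMem_Hs hF' _ D.hc) σ s s' hs

/-- a quadratic subfield moved by one complex conjugation is imaginary -/
lemma complex_of {F : Type} [Field F] [NumberField F] (hF : Module.finrank ℚ F = 2) (φ : F →+* N)
    {j : N →+* ℂ} {c : N ≃ₐ[ℚ] N} (hc : IsConj j c) (h : c ∉ Hs φ) : IsTotallyComplex F := by
  have nT : (Hs φ).Normal := Subgroup.normal_of_index_eq_two (by rw [index_Hs, hF])
  refine ⟨fun v => ?_⟩
  rw [← InfinitePlace.mk_embedding v, InfinitePlace.isComplex_mk_iff]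
  intro hr
  let : Algebra F N := φ.toAlgebra
  have : IsScalarTower ℚ F N := IsScalarTower.of_algebraMap_eq' (RingHom.ext fun x => by simp)
  have : Algebra.IsAlgebraic F N := Algebra.IsAlgebraic.tower_top (K := ℚ) F
  let φ₁ : N →+* ℂ := ComplexEmbedding.lift N v.embedding
  have h1 : φ₁.comp φ = v.embedding := ComplexEmbedding.lift_comp_algebraMap N _
  obtain ⟨σ, hσ⟩ := ComplexEmbedding.exists_comp_symm_eq_of_comp_eq (k := ℚ) j φ₁ (by ext x; simp)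
  have h2 : ∀ y, φ₁ y = j (σ.symm y) := fun y => (RingHom.congr_fun hσ y).symm
  apply h
  have h3 : (σ * c * σ⁻¹ : N ≃ₐ[ℚ] N) ∈ Hs φ := by
    rw [mem_Hs]
    intro k
    apply φ₁.injective
    rw [h2]
    change j (σ.symm (σ (c (σ.symm (φ k))))) = _
    rw [AlgEquiv.symm_apply_apply, hc.eq, ← h2]
    have h4 : φ₁ (φ k) = v.embedding k := RingHom.congr_fun h1 k
    rw [h4]
    exact RingHom.congr_fun (ComplexEmbedding.isReal_iff.mp hr) k
  have h5 := nT.conj_mem _ h3 σ⁻¹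
  have h6 : σ⁻¹ * (σ * c * σ⁻¹) * σ⁻¹⁻¹ = c := by group
  rwa [h6] at h5

/-- **The imaginary quadratic field.** -/
theorem Dt.exists_imq (hψ : Mix ψ) (D : Dt ψ N) (h : D.Sq) :
    ∃ (F : Type) (_ : Field F) (_ : NumberField F) (_ : Algebra F N) (_ : IsGalois F N)
      (ξ : (N ≃ₐ[F] N) →* ℂˣ), Module.finrank ℚ F = 2 ∧ IsTotallyComplex F ∧
      ∀ (M : Type) [CommGroup M] (A : ArtinInvariant M), A.val K L (lc ψ) = A.val F N (lc ξ) := by
  have hi : D.S.index = 2 := by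
    change (Hs (D.φ.comp (algebraMap K L))).index = 2
    rw [index_Hs, hψ.two]
  obtain ⟨T, ξ, hT, hcT, hab⟩ := grp_ext hi D.θ h D.z D.θ_z
    (fun g hg c' hc' => D.θ_conj hg hc')
  let F := IntermediateField.fixedField T
  let e : T ≃* (N ≃ₐ[F] N) := IntermediateField.subgroupEquivAlgEquiv T
  have he : ∀ (t : T) (x : N), (e t) x = (t : N ≃ₐ[ℚ] N) x := fun t x => rfl
  have hHs : Hs (algebraMap F N) = T := by
    conv_rhs => rw [← IntermediateField.fixingSubgroup_fixedField T]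
    ext g
    rw [mem_Hs, IntermediateField.mem_fixingSubgroup_iff]
    exact ⟨fun h x hx => h ⟨x, hx⟩, fun h x => h x.1 x.2⟩
  have hF : Module.finrank ℚ F = 2 := by
    rw [← index_Hs (algebraMap F N), hHs, hT]
  have hFc : IsTotallyComplex F := complex_of hF (algebraMap F N) D.hc (by rw [hHs]; exact hcT)
  refine ⟨F, inferInstance, inferInstance, inferInstance, inferInstance, ξ.comp e.symm.toMonoidHom,
    hF, hFc, fun M _ A => ?_⟩
  refine val_eq hψ D hF hFc (ξ.comp e.symm.toMonoidHom) (RingHom.id N) (fun s g hg => ?_) A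
  have hg' : ∀ x, (s : N ≃ₐ[ℚ] N) x = g x := hg
  have hsT : (s : N ≃ₐ[ℚ] N) ∈ T := by
    rw [← hHs, mem_Hs]
    intro k
    rw [hg', AlgEquiv.commutes]
  have h1 : e ⟨s, hsT⟩ = g := by
    ext x
    rw [he]
    exact hg' x
  change D.θ s = ξ (e.symm g)
  rw [← h1, e.symm_apply_apply]
  exact hab _ s.2 hsT

end sq

end Pool.Agent.W2helper72.SK
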