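import Mathlib
import Pool.Agent.W2helper72.SK.Sq
import Pool.Agent.W2helper73.SO.Lim
import Pool.Agent.K4H74.SC.Core

/-!
# The square of the character and the absolute Galois group
-/

set_option autoImplicit false
set_option linter.unusedSectionVars false

namespace Pool.Agent.W2helper72.SK

open NumberField NumberField.ComplexEmbedding Pool.Agent.K4H74 Pool.Agent.K4H74.SK
  Pool.Agent.K4H74.ST Pool.Agent.W2helper73.SO Filter

/-- The square of `ψ` is invariant under all conjugations: if an automorphism `s` of the algebraic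
numbers acts on two embedded copies of `L` as the elements `g` and `g'` of the Galois group of
`L / K`, then `ψ(g)² = ψ(g')²`. -/
def SquareInvariant {E : Ext} (ψ : G E →* ℂˣ) : Prop :=
  ∀ (s : AlgebraicClosure ℚ ≃+* AlgebraicClosure ℚ) (φ φ' : E.L →+* AlgebraicClosure ℚ)
    (g g' : G E), (∀ x, s (φ x) = φ (emb g x)) → (∀ x, s (φ' x) = φ' (emb g' x)) →
    ψ g ^ 2 = ψ g' ^ 2

/-- embeddings at a finite level -/
lemma ev_emb' {L : Type} [Field L] [NumberField L] (φ : L →+* AlgebraicClosure ℚ) :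
    ∀ᶠ N : Ix in atTop, ∃ J : L →+* N, ∀ x, ((J x : N.toIntermediateField) : AlgebraicClosure ℚ)
      = φ x := by
  let e : L →ₐ[ℚ] AlgebraicClosure ℚ := φ.toRatAlgHom
  have : FiniteDimensional ℚ e.fieldRange :=
    (AlgEquiv.ofInjectiveField e).toLinearEquiv.finiteDimensional
  let N₁ : Ix :=
    { IntermediateField.normalClosure ℚ e.fieldRange (AlgebraicClosure ℚ) with
      finiteDimensional := normalClosure.is_finiteDimensional ℚ e.fieldRange (AlgebraicClosure ℚ)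
      isGalois := IsGalois.normalClosure ℚ e.fieldRange (AlgebraicClosure ℚ) }
  filter_upwards [eventually_ge_atTop N₁] with N hN
  have h1 : e.fieldRange ≤ N.toIntermediateField :=
    (IntermediateField.le_normalClosure e.fieldRange).trans hN
  exact ⟨(e : L →+* AlgebraicClosure ℚ).codRestrict N.toIntermediateField.toSubfield
    fun x => h1 ⟨x, rfl⟩, fun x => rfl⟩

/-- restriction to a finite level -/
lemma exists_restr (N : Ix) (s : AlgebraicClosure ℚ ≃+* AlgebraicClosure ℚ) :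
    ∃ t : N ≃ₐ[ℚ] N, ∀ x : N, ((t x : N.toIntermediateField) : AlgebraicClosure ℚ) = s x := by
  have : Normal ℚ N.toIntermediateField := inferInstance
  let s' : AlgebraicClosure ℚ ≃ₐ[ℚ] AlgebraicClosure ℚ := AlgEquiv.ofRingEquiv (f := s) (by simp)
  refine ⟨AlgEquiv.restrictNormalHom N.toIntermediateField s', fun x => ?_⟩
  exact AlgEquiv.restrictNormal_commutes s' N.toIntermediateField x

/-- extension to the algebraic numbers -/
lemma exists_lift' (N : Ix) (t : N ≃ₐ[ℚ] N) : ∃ s : AlgebraicClosure ℚ ≃+* AlgebraicClosure ℚ,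
    ∀ x : N, ((t x : N.toIntermediateField) : AlgebraicClosure ℚ) = s x := by
  have : Normal ℚ N.toIntermediateField := inferInstance
  have : Normal ℚ (AlgebraicClosure ℚ) := IsAlgClosure.normal ℚ (AlgebraicClosure ℚ)
  obtain ⟨s, hs⟩ := AlgEquiv.restrictNormalHom_surjective (F := ℚ) (K₁ := N.toIntermediateField)
    (AlgebraicClosure ℚ) t
  refine ⟨s.toRingEquiv, fun x => ?_⟩
  rw [← hs]
  exact AlgEquiv.restrictNormal_commutes s N.toIntermediateField x

variable {E : Ext} {ψ : G E →* ℂˣ}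

lemma sq_of_abs (h : SquareInvariant ψ) (N : Ix)
    (D : Dt (show (E.L ≃ₐ[E.K] E.L) →* ℂˣ from ψ) N) : D.Sq := by
  intro σ s s' hs
  obtain ⟨t, ht⟩ := exists_lift' N s
  let ι : N →+* AlgebraicClosure ℚ := N.toIntermediateField.val.toRingHom
  have hι : ∀ x, t (ι x) = ι ((s : N ≃ₐ[ℚ] N) x) := fun x => (ht x).symm
  refine (h t (ι.comp D.φ) (ι.comp (((σ⁻¹ : N ≃ₐ[ℚ] N) : N →+* N).comp D.φ)) (D.ρ s) (D.ρ s')
    (fun x => ?_) (fun x => ?_)).symm
  · change t (ι (D.φ x)) = ι (D.φ (D.ρ s x))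
    rw [hι, D.rl s x]
  · change t (ι (σ⁻¹ (D.φ x))) = ι (σ⁻¹ (D.φ (D.ρ s' x)))
    rw [hι, ← D.rl s' x, hs]
    congr 1
    change _ = σ⁻¹ (σ ((s : N ≃ₐ[ℚ] N) (σ⁻¹ (D.φ x))))
    exact (AlgEquiv.symm_apply_apply σ _).symm

lemma abs_not_sq (h : ¬ SquareInvariant ψ) : ∀ᶠ N : Ix in atTop,
    ∀ D : Dt (show (E.L ≃ₐ[E.K] E.L) →* ℂˣ from ψ) N, ¬ D.Sq := by
  unfold SquareInvariant at h
  push Not at h
  obtain ⟨s, φ, φ', g, g', hg, hg', hne⟩ := h
  filter_upwards [ev_emb' φ, ev_emb' φ'] with N h1 h2 D hD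
  obtain ⟨J, hJ⟩ := h1
  obtain ⟨J', hJ'⟩ := h2
  obtain ⟨t, ht⟩ := exists_restr N s
  have e1 : ∀ x, t (J x) = J ((show E.L ≃ₐ[E.K] E.L from g) x) := by
    intro x
    apply Subtype.ext
    rw [ht, hJ, hJ]
    exact hg x
  have e2 : ∀ x, t (J' x) = J' ((show E.L ≃ₐ[E.K] E.L from g') x) := by
    intro x
    apply Subtype.ext
    rw [ht, hJ', hJ']
    exact hg' x
  obtain ⟨a, ha⟩ := exists_aut J D.φ
  obtain ⟨b, hb⟩ := exists_aut J' D.φ
  have key : ∀ (a : N ≃ₐ[ℚ] N) (J : E.L →+* N) (g : E.L ≃ₐ[E.K] E.L),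
      (∀ x, a (J x) = D.φ x) → (∀ x, t (J x) = J (g x)) →
      ∀ x, (a * t * a⁻¹ : N ≃ₐ[ℚ] N) (D.φ x) = D.φ (g x) := by
    intro a J g ha hg x
    change a (t (a⁻¹ (D.φ x))) = _
    rw [← ha x, show a⁻¹ (a (J x)) = J x from AlgEquiv.symm_apply_apply a _, hg, ha]
  have key2 : ∀ (u : N ≃ₐ[ℚ] N) (g : E.L ≃ₐ[E.K] E.L), (∀ x, u (D.φ x) = D.φ (g x)) → u ∈ D.S := by
    intro u g hu
    refine mem_Hs.mpr fun k => ?_
    change u (D.φ (algebraMap E.K E.L k)) = D.φ (algebraMap E.K E.L k)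
    rw [hu, AlgEquiv.commutes]
  have k1 := key a J g ha e1
  have k2 := key b J' g' hb e2
  have h3 := hD (b * a⁻¹) ⟨_, key2 _ _ k1⟩ ⟨_, key2 _ _ k2⟩ (by
    change b * t * b⁻¹ = (b * a⁻¹) * (a * t * a⁻¹) * (b * a⁻¹)⁻¹
    group)
  rw [D.θ_eq (s := ⟨_, key2 _ _ k1⟩) (h := g) k1, D.θ_eq (s := ⟨_, key2 _ _ k2⟩) (h := g') k2] at h3
  exact hne h3.symm

end Pool.Agent.W2helper72.SK
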