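import Mathlib
import Pool.Agent.W2helper72.SK.Sq

/-!
# Isolation: linear characters over other fields
-/

set_option autoImplicit false
set_option linter.unusedSectionVars false

namespace Pool.Agent.W2helper72.SK

open NumberField NumberField.ComplexEmbedding Pool.Agent.K4H74.ST Pool.Agent.W2helper73.SO
  Pool.Agent.R389

/-- the square of a character which agrees with a character of a normal subgroup -/
theorem grp_sq' {G : Type} [Group G] {S T : Subgroup G} (hS : S.index = 2) (nT : T.Normal)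
    (θ : S →* ℂˣ) (ξ : T →* ℂˣ) (hab : ∀ x (h : x ∈ S) (h' : x ∈ T), θ ⟨x, h⟩ = ξ ⟨x, h'⟩)
    {t : G} (htT : t ∈ T) (htS : t ∉ S) (σ : G) (s s' : S) (h : (s' : G) = σ * s * σ⁻¹) :
    θ s' ^ 2 = θ s ^ 2 := by
  have nS : S.Normal := Subgroup.normal_of_index_eq_two hS
  have mS : ∀ {x y : G}, x * y ∈ S ↔ (x ∈ S ↔ y ∈ S) := fun {x y} =>
    Subgroup.mul_mem_iff_of_index_two hS
  have inner : ∀ (a s s' : S), (s' : G) = a * s * (a : G)⁻¹ → θ s' = θ s := by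
    intro a s s' h
    have h1 : s' = a * s * a⁻¹ := Subtype.ext h
    rw [h1, map_mul, map_mul, map_inv, mul_comm, ← mul_assoc, inv_mul_cancel, one_mul]
  have hA : ∀ (s s' : S), (s : G) ∈ T → (s' : G) = t * s * t⁻¹ → θ s' = θ s := by
    intro s s' hs h
    have hs' : (s' : G) ∈ T := by rw [h]; exact nT.conj_mem _ hs t
    have h1 := hab _ s.2 hs
    have h2 := hab _ s'.2 hs'
    have h3 : (⟨s', hs'⟩ : T) = ⟨t, htT⟩ * ⟨s, hs⟩ * ⟨t, htT⟩⁻¹ := Subtype.ext h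
    rw [h3, map_mul, map_mul, map_inv, mul_comm, ← mul_assoc, inv_mul_cancel, one_mul] at h2
    exact h2.trans h1.symm
  have hB : ∀ (s s' : S), (s' : G) = t * s * t⁻¹ → θ s' ^ 2 = θ s ^ 2 := by
    intro s s' h
    have hx : ((s * s'⁻¹ : S) : G) ∈ T := by
      have h1 : ((s * s'⁻¹ : S) : G) = (s * t * (s : G)⁻¹) * t⁻¹ := by
        rw [Subgroup.coe_mul, Subgroup.coe_inv, h]
        group
      rw [h1]
      exact T.mul_mem (nT.conj_mem _ htT _) (T.inv_mem htT)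
    have h2 : t * s' * t⁻¹ ∈ S := nS.conj_mem _ s'.2 t
    have h3 : θ ⟨_, h2⟩ = θ s := by
      refine inner ⟨t * t, mS.mpr Iff.rfl⟩ s ⟨_, h2⟩ ?_
      change t * (s' : G) * t⁻¹ = t * t * s * (t * t)⁻¹
      rw [h]
      group
    have h4 := hA (s * s'⁻¹) (s' * (⟨_, h2⟩ : S)⁻¹) hx (by
      change (s' : G) * (t * (s' : G) * t⁻¹)⁻¹ = t * ((s : G) * (s' : G)⁻¹) * t⁻¹
      rw [h]
      group)
    rw [map_mul, map_mul, map_inv, map_inv, h3] at h4
    have h5 : θ s' * θ s' = θ s * θ s := by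
      have h6 := congrArg (fun u => u * (θ s * θ s')) h4
      calc θ s' * θ s' = θ s' * (θ s)⁻¹ * (θ s * θ s') := by group
        _ = θ s * (θ s')⁻¹ * (θ s * θ s') := h6
        _ = θ s * θ s := by rw [mul_comm (θ s) (θ s')]; group
    rw [sq, sq, h5]
  by_cases hσ : σ ∈ S
  · rw [inner ⟨σ, hσ⟩ s s' h]
  · have h1 : σ * t⁻¹ ∈ S := mS.mpr ⟨fun h => absurd h hσ, fun h => absurd (S.inv_mem_iff.mp h) htS⟩
    have h2 : t * s * t⁻¹ ∈ S := nS.conj_mem _ s.2 t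
    rw [inner ⟨_, h1⟩ ⟨_, h2⟩ s' (by rw [h]; group)]
    exact hB s ⟨_, h2⟩ rfl

section iso

variable {N : Type} [Field N] [NumberField N] [IsGalois ℚ N]
variable {K L : Type} [Field K] [NumberField K] [Field L] [NumberField L] [Algebra K L]
  [IsGalois K L] {ψ : (L ≃ₐ[K] L) →* ℂˣ}
variable {F E : Type} [Field F] [NumberField F] [Field E] [NumberField E] [Algebra F E]
  [IsGalois F E]

/-- the complex conjugation of an embedding of `E` is induced by a conjugate of `c` -/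
lemma exists_conj_rl (J : E →+* N) {j : N →+* ℂ} {c : N ≃ₐ[ℚ] N} (hc : IsConj j c)
    {φ : E →+* ℂ} {t : E ≃ₐ[F] E} (ht : IsConj φ t) :
    ∃ σ : N ≃ₐ[ℚ] N, ∀ x, (σ * c * σ⁻¹ : N ≃ₐ[ℚ] N) (J x) = J (t x) := by
  let : Algebra E N := J.toAlgebra
  have : IsScalarTower ℚ E N := IsScalarTower.of_algebraMap_eq' (RingHom.ext fun x => by simp)
  have : Algebra.IsAlgebraic E N := Algebra.IsAlgebraic.tower_top (K := ℚ) E
  let φ₁ : N →+* ℂ := ComplexEmbedding.lift N φ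
  have h1 : φ₁.comp J = φ := ComplexEmbedding.lift_comp_algebraMap N _
  obtain ⟨σ, hσ⟩ := ComplexEmbedding.exists_comp_symm_eq_of_comp_eq (k := ℚ) j φ₁ (by ext x; simp)
  have h2 : ∀ y, φ₁ y = j (σ.symm y) := fun y => (RingHom.congr_fun hσ y).symm
  have h3 : ∀ x, φ₁ (J x) = φ x := fun x => RingHom.congr_fun h1 x
  refine ⟨σ, fun x => ?_⟩
  apply φ₁.injective
  rw [h2]
  change j (σ.symm (σ (c (σ.symm (J x))))) = _
  rw [AlgEquiv.symm_apply_apply, hc.eq, ← h2, h3, h3, ht.eq]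

/-- inclusion of stabilisers and embeddings -/
lemma exists_hom {F : Type} [Field F] [NumberField F] (φ : K →+* N) (φ' : F →+* N)
    (h : Hs φ' ≤ Hs φ) : Nonempty (K →+* F) := by
  let e : F →ₐ[ℚ] N := φ'.toRatAlgHom
  have h1 : ∀ k, φ k ∈ e.fieldRange := by
    intro k
    rw [← IsGalois.fixedField_fixingSubgroup e.fieldRange, IntermediateField.mem_fixedField_iff]
    intro g hg
    rw [IntermediateField.mem_fixingSubgroup_iff] at hg
    have h2 : g ∈ Hs φ' := mem_Hs.mpr fun x => hg _ ⟨x, rfl⟩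
    exact mem_Hs.mp (h h2) k
  have h2 : ∀ k, ∃ x, φ' x = φ k := h1
  choose f hf using h2
  exact ⟨{ toFun := f
           map_one' := φ'.injective (by rw [hf, map_one, map_one])
           map_mul' := fun a b => φ'.injective (by rw [hf, map_mul, map_mul, hf, hf])
           map_zero' := φ'.injective (by rw [hf, map_zero, map_zero])
           map_add' := fun a b => φ'.injective (by rw [hf, map_add, map_add, hf, hf]) }⟩

lemma Dt.θ_conj' (D : Dt ψ N) {g : N ≃ₐ[ℚ] N} (hg : g ∈ D.S) {s : D.S}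
    (hs : (s : N ≃ₐ[ℚ] N) = g * D.z * g⁻¹) : D.θ s = 1 := by
  have h1 : s = ⟨g, hg⟩ * D.z * ⟨g, hg⟩⁻¹ := Subtype.ext hs
  rw [h1, map_mul, map_mul, map_inv, D.θ_z, mul_one, mul_inv_cancel]

/-- characters are class functions -/
lemma class_fn {G : Type} [Group G] {χ : G → ℂ} (h : IsChar χ) (r t g : G) :
    χ (r * t * r⁻¹ * g) = χ (t * (r⁻¹ * g * r)) := by
  obtain ⟨V, _, _, _, ρ, rfl⟩ := h
  have h1 : r * t * r⁻¹ * g = r * (t * (r⁻¹ * g * r)) * r⁻¹ := by group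
  rw [h1]
  exact Representation.char_conj ρ _ _

/-- **A scalar complex conjugation over a field which does not contain `K`.** -/
theorem Dt.scalar (hK : Module.finrank ℚ K = 2) (D : Dt ψ N) (hKF : IsEmpty (K →+* F))
    {χ : (E ≃ₐ[F] E) → ℂ} (hχ : IsChar χ) {t : E ≃ₐ[F] E} (ht : t ∈ CC F E) {e : ℂ}
    (he : e ^ 2 = 1) (hte : ∀ g, χ (t * g) = e * χ g) : FN D.S (wd D.θ) F E χ = 0 := by
  have hi : D.S.index = 2 := by
    change (Hs (D.φ.comp (algebraMap K L))).index = 2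
    rw [index_Hs, hK]
  have nS : D.S.Normal := Subgroup.normal_of_index_eq_two hi
  have mS : ∀ {x y : N ≃ₐ[ℚ] N}, x * y ∈ D.S ↔ (x ∈ D.S ↔ y ∈ D.S) := fun {x y} =>
    Subgroup.mul_mem_iff_of_index_two hi
  have h3 : ∑ s : D.S, wd D.θ s * ∑ J : E →+* N, Dd χ J s
      = ∑ J : E →+* N, ∑ s : D.S, wd D.θ s * Dd χ J s := by
    rw [Finset.sum_comm]
    exact Finset.sum_congr rfl fun s _ => Finset.mul_sum _ _ _
  rw [FN, h3, Finset.sum_eq_zero fun J _ => ?_, mul_zero]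
  obtain ⟨ρ', hρ'⟩ := exists_rho (K := F) J
  obtain ⟨φ, hφ⟩ := ht
  obtain ⟨σ, hσ⟩ := exists_conj_rl J D.hc hφ
  obtain ⟨u, huT, huS⟩ : ∃ u ∈ Hs (J.comp (algebraMap F E)), u ∉ D.S := by
    by_contra hcon
    push Not at hcon
    obtain ⟨f⟩ := exists_hom (D.φ.comp (algebraMap K L)) (J.comp (algebraMap F E)) hcon
    exact hKF.elim f
  have hc1 : σ * D.z * σ⁻¹ ∈ D.S := nS.conj_mem _ D.z.2 σ
  have hc2 : u * (σ * D.z * σ⁻¹) * u⁻¹ ∈ D.S := nS.conj_mem _ hc1 u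
  have r1 : Rl (⟨_, hc1⟩ : D.S) J t := hσ
  have hu : ∀ x, u (J x) = J (ρ' ⟨u, huT⟩ x) := fun x => hρ' ⟨u, huT⟩ x
  have r2 : Rl (⟨_, hc2⟩ : D.S) J (ρ' ⟨u, huT⟩ * t * (ρ' ⟨u, huT⟩)⁻¹) := by
    intro x
    obtain ⟨y, rfl⟩ := (ρ' ⟨u, huT⟩).surjective x
    rw [← hu]
    change u ((σ * D.z * σ⁻¹ : N ≃ₐ[ℚ] N) (u⁻¹ (u (J y)))) = J (ρ' ⟨u, huT⟩ (t
      ((ρ' ⟨u, huT⟩)⁻¹ (ρ' ⟨u, huT⟩ y))))
    rw [show u⁻¹ (u (J y)) = J y from AlgEquiv.symm_apply_apply u _,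
      show (ρ' ⟨u, huT⟩)⁻¹ (ρ' ⟨u, huT⟩ y) = y from AlgEquiv.symm_apply_apply _ _, ← hu]
    congr 1
    exact hσ y
  have t2 : ∀ g, χ (ρ' ⟨u, huT⟩ * t * (ρ' ⟨u, huT⟩)⁻¹ * g) = e * χ g := by
    intro g
    rw [class_fn hχ, hte]
    congr 1
    have h5 := class_fn hχ (ρ' ⟨u, huT⟩)⁻¹ g 1
    rw [inv_inv, mul_one] at h5
    rw [h5]
    congr 1
    group
  have e5 : u * (σ * D.z * σ⁻¹) * u⁻¹ = (u * σ) * D.z * (u * σ)⁻¹ := by group
  have key : ∀ (z : D.S) (a : ℂ) (r : E ≃ₐ[F] E), D.θ z * D.θ z = 1 → ((D.θ z : ℂˣ) : ℂ) = a →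
      a * e = -1 → Rl z J r → (∀ g, χ (r * g) = e * χ g) →
      ∑ s : D.S, wd D.θ s * Dd χ J s = 0 := by
    intro z a r h1 h2 h4 h5 h6
    refine sum_shift (f := fun s => wd D.θ s * Dd χ J s) z (u := -1) (fun s => ?_) (by norm_num)
    rw [wd_mul D.θ h1, h2, Dd_mul h5 h6]
    linear_combination (wd D.θ s * Dd χ J s) * h4
  have he' : e = 1 ∨ e = -1 := by
    have := mul_self_eq_one_iff.mp (show e * e = 1 by rw [← sq, he])
    exact this
  by_cases hs : σ ∈ D.S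
  · have a1 : D.θ ⟨_, hc1⟩ = 1 := D.θ_conj' hs rfl
    have a2 : D.θ ⟨_, hc2⟩ = -1 := D.θ_conj (g := u * σ) (fun h => huS ((mS.mp h).mpr hs)) e5
    rcases he' with rfl | rfl
    · exact key ⟨_, hc2⟩ (-1) _ (by rw [a2]; norm_num) (by rw [a2]; simp) (by norm_num) r2 t2
    · exact key ⟨_, hc1⟩ 1 _ (by rw [a1]; norm_num) (by rw [a1]; simp) (by norm_num) r1 hte
  · have a1 : D.θ ⟨_, hc1⟩ = -1 := D.θ_conj hs rfl
    have a2 : D.θ ⟨_, hc2⟩ = 1 := D.θ_conj' (g := u * σ)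
      (mS.mpr ⟨fun h => absurd h huS, fun h => absurd h hs⟩) e5
    rcases he' with rfl | rfl
    · exact key ⟨_, hc1⟩ (-1) _ (by rw [a1]; norm_num) (by rw [a1]; simp) (by norm_num) r1 hte
    · exact key ⟨_, hc2⟩ 1 _ (by rw [a2]; norm_num) (by rw [a2]; simp) (by norm_num) r2 t2

/-- **Quadratic fields.** -/
theorem Dt.quadratic (hK : Module.finrank ℚ K = 2) (D : Dt ψ N) (hF : Module.finrank ℚ F = 2)
    (ξ : (E ≃ₐ[F] E) →* ℂˣ) (J : E →+* N)
    (h : ∀ (s : D.S) (g : E ≃ₐ[F] E), Rl s J g → D.θ s = ξ g) (hno : ¬ D.Sq) {M : Type}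
    [CommGroup M] (A : ArtinInvariant M) : A.val K L (lc ψ) = A.val F E (lc ξ) := by
  classical
  obtain ⟨ρ', hρ'⟩ := exists_rho (K := F) J
  have hi : D.S.index = 2 := by
    change (Hs (D.φ.comp (algebraMap K L))).index = 2
    rw [index_Hs, hK]
  have hi' : (Hs (J.comp (algebraMap F E))).index = 2 := by rw [index_Hs, hF]
  have hST : D.S ≤ Hs (J.comp (algebraMap F E)) := by
    intro c hc
    by_contra hcT
    apply hno
    intro σ s s' hs
    exact grp_sq hi hi' D.θ (ξ.comp ρ') (fun x hx hx' => h ⟨x, hx⟩ (ρ' ⟨x, hx'⟩)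
      (fun y => hρ' ⟨x, hx'⟩ y)) hc hcT σ s s' hs
  have hTS : Hs (J.comp (algebraMap F E)) ≤ D.S := by
    have h2 := Subgroup.relIndex_mul_index hST
    rw [hi, hi'] at h2
    have h3 : D.S.relIndex (Hs (J.comp (algebraMap F E))) = 1 := by omega
    exact Subgroup.relIndex_eq_one.mp h3
  rw [val_ext A D.φ D.ρ D.hρ (IsChar.lc ψ), val_ext A J ρ' hρ' (IsChar.lc ξ)]
  congr 1
  funext g
  have hcard : Nat.card (Hs (D.φ.comp (algebraMap K L)))
      = Nat.card (Hs (J.comp (algebraMap F E))) := by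
    have h1 := card_Hs (D.φ.comp (algebraMap K L))
    have h2 := card_Hs (J.comp (algebraMap F E))
    rw [hK] at h1
    rw [hF] at h2
    omega
  rw [hcard]
  congr 1
  refine Finset.sum_congr rfl fun x _ => ?_
  generalize x⁻¹ * g * x = y
  by_cases hy : y ∈ D.S
  · have hy' : y ∈ Hs (D.φ.comp (algebraMap K L)) := hy
    rw [ex_mem D.ρ (lc ψ) hy', ex_mem ρ' (lc ξ) (hST hy)]
    exact congrArg (fun u : ℂˣ => (u : ℂ)) (h ⟨y, hy⟩ _ fun z => hρ' ⟨y, hST hy⟩ z)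
  · have hy' : y ∉ Hs (D.φ.comp (algebraMap K L)) := hy
    rw [ex_not D.ρ (lc ψ) hy', ex_not ρ' (lc ξ) fun h => hy (hTS h)]

/-- **Galois extensions of `ℚ` which do not contain `K`.** -/
theorem Dt.galois (hK : Module.finrank ℚ K = 2) (D : Dt ψ N) (hKF : IsEmpty (K →+* F))
    [IsGalois ℚ F] (ξ : (E ≃ₐ[F] E) →* ℂˣ) (J : E →+* N)
    (h : ∀ (s : D.S) (g : E ≃ₐ[F] E), Rl s J g → D.θ s = ξ g) : D.Sq := by
  obtain ⟨ρ', hρ'⟩ := exists_rho (K := F) J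
  have hi : D.S.index = 2 := by
    change (Hs (D.φ.comp (algebraMap K L))).index = 2
    rw [index_Hs, hK]
  obtain ⟨u, huT, huS⟩ : ∃ u ∈ Hs (J.comp (algebraMap F E)), u ∉ D.S := by
    by_contra hcon
    push Not at hcon
    obtain ⟨f⟩ := exists_hom (D.φ.comp (algebraMap K L)) (J.comp (algebraMap F E)) hcon
    exact hKF.elim f
  have nT : (Hs (J.comp (algebraMap F E))).Normal := by
    refine ⟨fun s hs g => ?_⟩
    obtain ⟨τ, hτ⟩ := exists_gal (K := ℚ) (J.comp (algebraMap F E))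
      (((g⁻¹ : N ≃ₐ[ℚ] N) : N →+* N).comp (J.comp (algebraMap F E))) (RingHom.ext fun x => by simp)
    rw [mem_Hs] at hs ⊢
    intro k
    have h1 : g⁻¹ ((J.comp (algebraMap F E)) k) = (J.comp (algebraMap F E)) (τ k) := hτ k
    change g (s (g⁻¹ ((J.comp (algebraMap F E)) k))) = _
    rw [h1, hs, ← h1]
    exact AlgEquiv.apply_symm_apply g _
  intro σ s s' hs
  exact grp_sq' hi nT D.θ (ξ.comp ρ') (fun x hx hx' => h ⟨x, hx⟩ (ρ' ⟨x, hx'⟩)
    (fun y => hρ' ⟨x, hx'⟩ y)) huT huS σ s s' hs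

end iso

end Pool.Agent.W2helper72.SK
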