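import Mathlib
import Pool.Agent.W2helper72.SK.Abs
import Pool.Agent.W2helper72.SK.Iso
import Pool.Agent.W2helper73.SO.Cls

/-!
# The isolation of the characters of mixed signature
-/

set_option autoImplicit false
set_option linter.unusedSectionVars false

namespace Pool.Agent.W2helper72.SK

open NumberField NumberField.ComplexEmbedding Pool.Agent.K4H74 Pool.Agent.K4H74.SK
  Pool.Agent.K4H74.ST Pool.Agent.W2helper73.SO Pool.Agent.K4H34.AL Filter

/-- `L(s, ψ) = L(s, ξ)`: the logarithms `∑ ψ(p ^ n) / (n N(p) ^ (n s))` are equal for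
`Re s > 1`. -/
def SameL {E F : Ext} (ψ : G E →* ℂˣ) (ξ : G F →* ℂˣ) : Prop :=
  ∀ s : ℂ, 1 < s.re → ∀ l l' : ℂ, HasSum (logTerm (lin ψ) s) l → HasSum (logTerm (lin ξ) s) l' →
    l = l'

/-- `K` is real quadratic, and the linear character `ψ` of the Galois group of `L / K` has mixed
signature: it is trivial on some complex conjugation and nontrivial on some other. -/
structure Mixed {E : Ext} (ψ : G E →* ℂˣ) : Prop where
  quadratic : Module.finrank ℚ E.K = 2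
  real : IsTotallyReal E.K
  split : ∃ t : G E, IsCC t ∧ ψ t = 1
  nonsplit : ∃ t : G E, IsCC t ∧ ψ t ≠ 1

/-- The accessible characters. The types `imagQuadratic`, `odd`, `real`, `abelian` contain the
characters for which Stark's conjecture is known; for the other types it is not known. -/
inductive Accessible {E : Ext} (ψ : G E →* ℂˣ) : Pair → Prop
  /-- the linear characters over the imaginary quadratic fields -/
  | imagQuadratic (F : Ext) (ξ : G F →* ℂˣ) : Module.finrank ℚ F.K = 2 → IsTotallyComplex F.K →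
      Accessible ψ ⟨F, lin ξ⟩
  /-- the totally odd characters over the totally real fields -/
  | odd (F : Ext) (χ : G F → ℂ) : IsChr χ → IsTotallyReal F.K →
      (∀ t : G F, IsCC t → χ t = - χ 1) → Accessible ψ ⟨F, χ⟩
  /-- the totally even characters over the totally real fields -/
  | even (F : Ext) (χ : G F → ℂ) : IsChr χ → IsTotallyReal F.K →
      (∀ t : G F, IsCC t → χ t = χ 1) → Accessible ψ ⟨F, χ⟩
  /-- the real valued characters -/
  | real (F : Ext) (χ : G F → ℂ) : IsChr χ → (∀ g, (χ g).im = 0) → Accessible ψ ⟨F, χ⟩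
  /-- the characters of the abelian extensions of `ℚ` -/
  | abelian (F : Ext) (χ : G F → ℂ) : IsChr χ → IsGalois ℚ F.L →
      (∀ g h : F.L ≃ₐ[ℚ] F.L, g * h = h * g) → Accessible ψ ⟨F, χ⟩
  /-- the characters over the fields which do not contain `K`, such that some complex conjugation
  acts as `1` or `-1`; for example all the linear characters over the fields with a real place
  which do not contain `K` -/
  | scalar (F : Ext) (χ : G F → ℂ) : IsChr χ → IsEmpty (E.K →+* F.K) →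
      (∃ t : G F, IsCC t ∧ (χ t = χ 1 ∨ χ t = - χ 1)) → Accessible ψ ⟨F, χ⟩
  /-- the linear characters over the Galois extensions of `ℚ` which do not contain `K` -/
  | galois (F : Ext) (ξ : G F →* ℂˣ) : IsGalois ℚ F.K → IsEmpty (E.K →+* F.K) →
      Accessible ψ ⟨F, lin ξ⟩
  /-- the linear characters `ξ` over the quadratic fields (for example over `K`) such that
  `L(s, ψ)` is different from `L(s, ξ)` and from `L(s, ξ⁻¹)` -/
  | quadratic (F : Ext) (ξ : G F →* ℂˣ) : Module.finrank ℚ F.K = 2 → ¬ SameL ψ ξ →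
      ¬ SameL ψ ξ⁻¹ → Accessible ψ ⟨F, lin ξ⟩

lemma Accessible.isChar {E : Ext} {ψ : G E →* ℂˣ} {x : Pair} (h : Accessible ψ x) :
    IsChar x.2 := by
  cases h with
  | imagQuadratic F ξ _ _ => exact IsChar.lc ξ
  | odd F χ h _ _ => exact isChr_iff.mp h
  | even F χ h _ _ => exact isChr_iff.mp h
  | real F χ h _ => exact isChr_iff.mp h
  | abelian F χ h _ _ => exact isChr_iff.mp h
  | scalar F χ h _ _ => exact isChr_iff.mp h
  | galois F ξ _ _ => exact IsChar.lc ξ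
  | quadratic F ξ _ _ _ => exact IsChar.lc ξ

section aux

variable {N : Type} [Field N] [NumberField N] [IsGalois ℚ N]
variable {K L : Type} [Field K] [NumberField K] [Field L] [NumberField L] [Algebra K L]
  [IsGalois K L] {ψ : (L ≃ₐ[K] L) →* ℂˣ}

lemma Dt.exists_neg (hψ : Mix ψ) (D : Dt ψ N) :
    ∃ (z : D.S) (j : N →+* ℂ), IsConj j (z : N ≃ₐ[ℚ] N) ∧ D.θ z = -1 := by
  have hi : D.S.index = 2 := by
    change (Hs (D.φ.comp (algebraMap K L))).index = 2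
    rw [index_Hs, hψ.two]
  obtain ⟨g, hg⟩ : ∃ g, g ∉ D.S := by
    by_contra hcon
    push Not at hcon
    rw [Subgroup.eq_top_iff' _ |>.mpr hcon, Subgroup.index_top] at hi
    omega
  have h1 : g * D.z * g⁻¹ ∈ D.S := (Subgroup.normal_of_index_eq_two hi).conj_mem _ D.z.2 g
  refine ⟨⟨_, h1⟩, D.j.comp ((g⁻¹ : N ≃ₐ[ℚ] N) : N →+* N), ?_, D.θ_conj hg rfl⟩
  have h2 := D.hc.comp g⁻¹
  rw [inv_inv] at h2
  exact h2

end aux

section star

open Matrix
open scoped ComplexOrder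

lemma char_star {G : Type} [Group G] [Fintype G] {n : ℕ} (ρ : G →* Matrix (Fin n) (Fin n) ℂ)
    (g : G) : (ρ g⁻¹).trace = star (ρ g).trace := by
  classical
  let P : Matrix (Fin n) (Fin n) ℂ := ∑ h, (ρ h)ᴴ * ρ h
  have hP : P.PosDef := by
    have h1 : P = (ρ 1)ᴴ * ρ 1 + ∑ h ∈ Finset.univ.erase (1 : G), (ρ h)ᴴ * ρ h :=
      (Finset.add_sum_erase _ _ (Finset.mem_univ _)).symm
    rw [h1, map_one, conjTranspose_one, one_mul]
    exact PosDef.one.add_posSemidef (posSemidef_sum _ fun h _ => posSemidef_conjTranspose_mul_self _)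
  have h1 : (ρ g)ᴴ * P * ρ g = P := by
    have h2 : P = ∑ h, (ρ (h * g))ᴴ * ρ (h * g) :=
      (Equiv.sum_comp (Equiv.mulRight g) (fun h => (ρ h)ᴴ * ρ h)).symm
    conv_rhs => rw [h2]
    change (ρ g)ᴴ * (∑ h, (ρ h)ᴴ * ρ h) * ρ g = _
    rw [Finset.mul_sum, Finset.sum_mul]
    refine Finset.sum_congr rfl fun h _ => ?_
    rw [map_mul, conjTranspose_mul]
    simp only [Matrix.mul_assoc]
  have h2 : (ρ g)ᴴ * P = P * ρ g⁻¹ := by
    have h3 : ρ g * ρ g⁻¹ = 1 := by rw [← map_mul, mul_inv_cancel, map_one]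
    calc (ρ g)ᴴ * P = (ρ g)ᴴ * P * (ρ g * ρ g⁻¹) := by rw [h3, mul_one]
      _ = (ρ g)ᴴ * P * ρ g * ρ g⁻¹ := by rw [← mul_assoc]
      _ = P * ρ g⁻¹ := by rw [h1]
  have hu : IsUnit P := hP.isUnit
  have h4 : P * P⁻¹ = 1 := Matrix.mul_nonsing_inv _ ((Matrix.isUnit_iff_isUnit_det _).mp hu)
  have h5 : P⁻¹ * P = 1 := Matrix.nonsing_inv_mul _ ((Matrix.isUnit_iff_isUnit_det _).mp hu)
  rw [← trace_conjTranspose]
  calc (ρ g⁻¹).trace = (P⁻¹ * (P * ρ g⁻¹)).trace := by rw [← mul_assoc, h5, one_mul]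
    _ = (P⁻¹ * ((ρ g)ᴴ * P)).trace := by rw [h2]
    _ = ((ρ g)ᴴ).trace := by
      rw [trace_mul_comm, mul_assoc, h4, mul_one]

lemma real_inv {G : Type} [Group G] [Finite G] {χ : G → ℂ} (h : IsChr χ)
    (hr : ∀ g, (χ g).im = 0) (g : G) : χ g⁻¹ = χ g := by
  have := Fintype.ofFinite G
  obtain ⟨n, ρ, hρ⟩ := h
  rw [hρ, char_star, ← hρ]
  exact Complex.conj_eq_iff_im.mpr (hr g)

end star

lemma scal_even {G : Type} [Group G] {χ : G → ℂ} (h : IsChar χ) {c : G} (hc : c * c = 1)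
    (ht : χ c = χ 1) (g : G) : χ (c * g) = 1 * χ g := by
  obtain ⟨V, _, _, _, ρ, rfl⟩ := h
  have hT : ρ c * ρ c = 1 := by rw [← map_mul, hc, map_one]
  have h1 : ρ 1 = 1 := ρ.map_one
  have h2 : ρ c = 1 := invol_one hT (by
    have : LinearMap.trace ℂ V (ρ c) = LinearMap.trace ℂ V (ρ 1) := ht
    rw [this, h1])
  change LinearMap.trace ℂ V (ρ (c * g)) = 1 * LinearMap.trace ℂ V (ρ g)
  rw [map_mul, h2, one_mul, one_mul]

lemma scal_odd {G : Type} [Group G] {χ : G → ℂ} (h : IsChar χ) {c : G} (hc : c * c = 1)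
    (ht : χ c = - χ 1) (g : G) : χ (c * g) = -1 * χ g := by
  obtain ⟨V, _, _, _, ρ, rfl⟩ := h
  have hT : ρ c * ρ c = 1 := by rw [← map_mul, hc, map_one]
  have h1 : ρ 1 = 1 := ρ.map_one
  have h2 : -ρ c = 1 := invol_one (by rw [neg_mul_neg, hT]) (by
    have : LinearMap.trace ℂ V (ρ c) = - LinearMap.trace ℂ V (ρ 1) := ht
    rw [map_neg, this, h1, neg_neg])
  have h3 : ρ c = -1 := by rw [← h2, neg_neg]
  change LinearMap.trace ℂ V (ρ (c * g)) = -1 * LinearMap.trace ℂ V (ρ g)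
  rw [map_mul, h3, neg_mul, one_mul, map_neg, neg_one_mul]

lemma sameL_of {E F : Ext} {ψ : G E →* ℂˣ} {ξ : G F →* ℂˣ}
    (h : logInv.val E.K E.L (lin ψ) = logInv.val F.K F.L (lin ξ)) : SameL ψ ξ := by
  intro s hs l l' hl hl'
  have h7 := logInv_val (lin ψ) ⟨s, hs⟩ hl
  have h8 := logInv_val (lin ξ) ⟨s, hs⟩ hl'
  rw [← h7, ← h8]
  exact congrFun (congrArg Multiplicative.toAdd h) (⟨s, hs⟩ : {s : ℂ // 1 < s.re})

section inv

/-- the vanishing at a finite level -/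
lemma zero {E : Ext} {ψ : G E →* ℂˣ} {N : Type} [Field N] [NumberField N] [IsGalois ℚ N]
    (hψ : Mix (show (E.L ≃ₐ[E.K] E.L) →* ℂˣ from ψ))
    (D : Dt (show (E.L ≃ₐ[E.K] E.L) →* ℂˣ from ψ) N) (hno : ¬ D.Sq) {x : Pair}
    (hx : Accessible ψ x) : FN D.S (wd D.θ) x.1.K x.1.L x.2 = 0 := by
  cases hx with
  | imagQuadratic F η h1 h2 =>
    by_contra h
    have h' : FN D.S (wd D.θ) F.K F.L (lc (show (F.L ≃ₐ[F.K] F.L) →* ℂˣ from η)) ≠ 0 := h
    obtain ⟨J, ξ', -, h3⟩ := imq h'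
    exact hno (D.sq_of_imq hψ.two h1 h2 ξ' J h3)
  | odd F χ h h1 h2 =>
    refine FN_scal D.θ (χ := χ) h1 (e := -1) (fun c hc g => ?_) (z := D.z) D.hc ?_
    · obtain ⟨φ, hφ⟩ := hc
      exact scal_odd (isChr_iff.mp h) (isConj_sq hφ) (h2 c ⟨φ, fun x => hφ.eq x⟩) g
    · rw [D.θ_z]
      simp
  | even F χ h h1 h2 =>
    obtain ⟨z, j, hz, hz'⟩ := D.exists_neg hψ
    refine FN_scal D.θ (χ := χ) h1 (e := 1) (fun c hc g => ?_) (z := z) hz ?_
    · obtain ⟨φ, hφ⟩ := hc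
      exact scal_even (isChr_iff.mp h) (isConj_sq hφ) (h2 c ⟨φ, fun x => hφ.eq x⟩) g
    · rw [hz']
      simp
  | real F χ h h1 =>
    exact FN_real D.θ (χ := χ) (real_inv h h1)
  | abelian F χ h h1 h2 =>
    obtain ⟨z, j, hz, hz'⟩ := D.exists_neg hψ
    exact FN_abel D.θ (χ := χ) h2 D.hc hz D.θ_z hz'
  | scalar F χ h h1 h2 =>
    obtain ⟨t, ⟨φ, hφ⟩, ht⟩ := h2
    have h3 : IsConj φ (show F.L ≃ₐ[F.K] F.L from t) := RingHom.ext fun x => (hφ x).symm
    obtain ⟨e, he, hte⟩ := scalar_of (isChr_iff.mp h) (c := t) (isConj_sq h3) ht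
    exact D.scalar hψ.two h1 (χ := χ) (isChr_iff.mp h) (t := t) ⟨φ, h3⟩ he hte
  | galois F ξ h1 h2 =>
    by_contra h
    have h' : FN D.S (wd D.θ) F.K F.L (lc (show (F.L ≃ₐ[F.K] F.L) →* ℂˣ from ξ)) ≠ 0 := h
    obtain ⟨J, ξ', -, h3⟩ := imq h'
    exact hno (D.galois hψ.two h2 ξ' J h3)
  | quadratic F ξ h1 h2 h4 =>
    by_contra h
    have h' : FN D.S (wd D.θ) F.K F.L (lc (show (F.L ≃ₐ[F.K] F.L) →* ℂˣ from ξ)) ≠ 0 := h
    obtain ⟨J, ξ', h5, h3⟩ := imq h'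
    have h6 := D.quadratic hψ.two h1 ξ' J h3 hno logInv
    rcases h5 with rfl | rfl
    · exact h2 (sameL_of h6)
    · exact h4 (sameL_of h6)

variable {E : Ext} {ψ : G E →* ℂˣ}

/-- **The invariant.** -/
theorem exists_inv (hψ : Mix (show (E.L ≃ₐ[E.K] E.L) →* ℂˣ from ψ)) (h2 : ∃ g, ψ g ^ 2 ≠ 1)
    (hno : ∀ᶠ N : Ix in atTop, ∀ D : Dt (show (E.L ≃ₐ[E.K] E.L) →* ℂˣ from ψ) N, ¬ D.Sq) :
    ∃ (M : Type) (_ : CommGroup M) (A : ArtinInvariant M), (∀ x, Accessible ψ x → pval A x = 1) ∧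
      ∀ n : ℤ, n ≠ 0 → A.val E.K E.L (lin ψ) ^ n ≠ 1 := by
  classical
  let D : ∀ N : Ix, Nonempty (E.L →+* N) → Dt (show (E.L ≃ₐ[E.K] E.L) →* ℂˣ from ψ) N := fun N h => (exists_Dt hψ h.some).some
  let f : ∀ (F E' : Type) [Field F] [NumberField F] [Field E'] [NumberField E'] [Algebra F E']
      [IsGalois F E'] (_ : (E' ≃ₐ[F] E') → ℂ), Ix → ℂ := fun F E' _ _ _ _ _ _ χ N =>
    if h : Nonempty (E.L →+* N) then FN (D N h).S (wd (D N h).θ) F E' χ else 0
  have hL : ∀ᶠ N : Ix in atTop, Nonempty (E.L →+* N) := ev_emb E.L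
  have hf : ∀ (F E' : Type) [Field F] [NumberField F] [Field E'] [NumberField E'] [Algebra F E']
      [IsGalois F E'] (χ : (E' ≃ₐ[F] E') → ℂ) (N : Ix) (h : Nonempty (E.L →+* N)),
      f F E' χ N = FN (D N h).S (wd (D N h).θ) F E' χ := fun F E' _ _ _ _ _ _ χ N h => dif_pos h
  let A : ArtinInvariant (Multiplicative ((atTop : Filter Ix).Germ ℂ)) :=
    { val := fun F E' _ _ _ _ _ _ χ => Multiplicative.ofAdd (f F E' χ : (atTop : Filter Ix).Germ ℂ)
      val_add := by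
        intro F E' _ _ _ _ _ _ χ χ' hχ hχ'
        rw [← ofAdd_add]
        congr 1
        rw [← Filter.Germ.coe_add]
        apply Filter.Germ.coe_eq.mpr
        filter_upwards [hL] with N h
        rw [Pi.add_apply, hf _ _ _ N h, hf _ _ _ N h, hf _ _ _ N h]
        exact FN_add _ _ _ _ χ χ'
      val_infl := by
        intro F E' M _ _ _ _ _ _ _ _ _ _ _ _ χ hχ
        congr 1
        apply Filter.Germ.coe_eq.mpr
        filter_upwards [hL, ev_emb M] with N h h'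
        rw [hf _ _ _ N h, hf _ _ _ N h]
        obtain ⟨e⟩ := h'
        exact FN_infl _ _ F E' M e χ
      val_ind := by
        intro F F' E' _ _ _ _ _ _ _ _ _ _ _ _ χ hχ
        congr 1
        apply Filter.Germ.coe_eq.mpr
        filter_upwards [hL] with N h
        rw [hf _ _ _ N h, hf _ _ _ N h]
        exact FN_ind _ _ F F' E' χ }
  refine ⟨_, inferInstance, A, fun x hx => ?_, fun n hn h => ?_⟩
  · change Multiplicative.ofAdd (f x.1.K x.1.L x.2 : (atTop : Filter Ix).Germ ℂ) = 1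
    rw [← ofAdd_zero]
    congr 1
    rw [← Filter.Germ.coe_zero]
    apply Filter.Germ.coe_eq.mpr
    filter_upwards [hL, hno] with N h hN
    exact (hf x.1.K x.1.L _ N h).trans (zero hψ (D N h) (hN _) hx)
  · change Multiplicative.ofAdd (f E.K E.L (lin ψ) : (atTop : Filter Ix).Germ ℂ) ^ n = 1 at h
    rw [← ofAdd_zsmul, ← ofAdd_zero] at h
    have h3 := Multiplicative.ofAdd.injective h
    have h4 : ((n • f E.K E.L (lin ψ) : Ix → ℂ) : (atTop : Filter Ix).Germ ℂ) = ((0 : Ix → ℂ) :) := by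
      rw [Filter.Germ.coe_smul, h3]
      rfl
    obtain ⟨N, h5, h6⟩ := ((Filter.Germ.coe_eq.mp h4).and hL).exists
    rw [Pi.smul_apply, zsmul_eq_mul] at h5
    rcases mul_eq_zero.mp h5 with h7 | h7
    · exact hn (by exact_mod_cast h7)
    · exact (D N h6).ne hψ.real h2 ((hf E.K E.L _ N h6).symm.trans h7)

end inv

lemma Mixed.mix {E : Ext} {ψ : G E →* ℂˣ} (hψ : Mixed ψ) :
    Mix (show (E.L ≃ₐ[E.K] E.L) →* ℂˣ from ψ) := by
  obtain ⟨t, ⟨φ, hφ⟩, ht⟩ := hψ.split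
  obtain ⟨t', ⟨φ', hφ'⟩, ht'⟩ := hψ.nonsplit
  have h1 : IsConj φ' (show E.L ≃ₐ[E.K] E.L from t') := RingHom.ext fun x => (hφ' x).symm
  refine ⟨hψ.quadratic, hψ.real, ⟨t, ⟨φ, RingHom.ext fun x => (hφ x).symm⟩, ht⟩, ⟨t', ⟨φ', h1⟩, ?_⟩⟩
  have h2 : t' * t' = 1 := isConj_sq h1
  have h3 : ((ψ t' : ℂˣ) : ℂ) * ((ψ t' : ℂˣ) : ℂ) = 1 := by
    rw [← Units.val_mul, ← map_mul, h2, map_one, Units.val_one]
  rcases mul_self_eq_one_iff.mp h3 with h6 | h6
  · exact absurd (Units.ext h6) ht'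
  · exact Units.ext (by rw [Units.val_neg, Units.val_one]; exact h6)

/-- **The isolation theorem.** -/
theorem criterion {E : Ext} {ψ : G E →* ℂˣ} (hψ : Mixed ψ) :
    List.TFAE [∃ n : ℤ, n ≠ 0 ∧ IsProd (Accessible ψ) ⟨E, lin ψ⟩ n,
      ∀ (M : Type) [CommGroup M] (A : ArtinInvariant M),
        (∀ x, Accessible ψ x → A.val x.1.K x.1.L x.2 = 1) → A.val E.K E.L (lin ψ) = 1,
      ∃ (F : Ext) (ξ : G F →* ℂˣ), Module.finrank ℚ F.K = 2 ∧ IsTotallyComplex F.K ∧ SameL ψ ξ,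
      SquareInvariant ψ] := by
  have key : SquareInvariant ψ → ∃ (F : Ext) (ξ : G F →* ℂˣ), Module.finrank ℚ F.K = 2 ∧
      IsTotallyComplex F.K ∧ ∀ (M : Type) [CommGroup M] (A : ArtinInvariant M),
        A.val E.K E.L (lin ψ) = A.val F.K F.L (lin ξ) := by
    intro h
    obtain ⟨N, ⟨φ⟩⟩ := (ev_emb E.L).exists
    obtain ⟨D⟩ := exists_Dt hψ.mix φ
    obtain ⟨F, _, _, _, _, ξ, h3, h4, h5⟩ := D.exists_imq hψ.mix (sq_of_abs h N D)
    exact ⟨⟨F, N⟩, ξ, h3, h4, fun M _ A => h5 M A⟩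
  tfae_have 4 → 3 := by
    intro h
    obtain ⟨F, ξ, h3, h4, h5⟩ := key h
    exact ⟨F, ξ, h3, h4, sameL_of (h5 _ logInv)⟩
  tfae_have 4 → 2 := by
    intro h M _ A hA
    obtain ⟨F, ξ, h3, h4, h5⟩ := key h
    exact (h5 M A).trans (hA ⟨F, lin ξ⟩ (Accessible.imagQuadratic F ξ h3 h4))
  tfae_have 2 → 1 := fun h => ⟨1, one_ne_zero, isProd_of fun M _ B hB => by
    rw [zpow_one]
    exact h M B hB⟩
  tfae_have 3 → 1 := by
    rintro ⟨F, ξ, h1, h2, h3⟩
    refine ⟨1, one_ne_zero, 1, fun _ => ⟨F, lin ξ⟩, fun _ => 1,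
      fun _ => Accessible.imagQuadratic F ξ h1 h2, ?_⟩
    intro s hs l l' hl hl'
    rw [h3 s hs l (l' 0) hl (hl' 0)]
    simp
  tfae_have 1 → 4 := by
    rintro ⟨n, hn, h⟩
    by_contra hcon
    have h2 : ∃ g, ψ g ^ 2 ≠ 1 := by
      by_contra hc
      push Not at hc
      exact hcon fun _ _ _ g g' _ _ => by rw [hc, hc]
    obtain ⟨M, _, A, hA, hA'⟩ := exists_inv hψ.mix h2 (abs_not_sq hcon)
    exact hA' n hn (isProd_val (IsChar.lc (show (E.L ≃ₐ[E.K] E.L) →* ℂˣ from ψ))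
      (fun x hx => hx.isChar) h A hA)
  tfae_finish

end Pool.Agent.W2helper72.SK
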