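import Mathlib
import Pool.Agent.W2helper73.SO.Quart

/-!
# Twisted cyclic quartic extensions (after `Pool.Agent.W2helper73.SO.Quart`)
-/

set_option autoImplicit false
set_option linter.unusedSectionVars false

namespace Pool.Agent.W2helper72.SK

open NumberField Pool.Agent.W2helper73.SO

section quart

variable (k : Type) [Field k] [NumberField k]

theorem exists_quartic (q β : k) (hq : q ≠ 0) (hα : ¬ IsSquare (1 + β ^ 2)) :
    ∃ (F : Type) (_ : Field F) (_ : NumberField F) (_ : Algebra k F) (_ : IsGalois k F)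
      (ψ : (F ≃ₐ[k] F) →* ℂˣ) (R S : F), Function.Injective ψ ∧ (∀ g, ψ g ^ 4 = 1) ∧
      R ^ 2 = algebraMap k F q * (algebraMap k F (1 + β ^ 2) + S) ∧
      S * S = algebraMap k F (1 + β ^ 2) ∧ (∀ g : F ≃ₐ[k] F, g R = R → ψ g = 1) ∧
      (∀ g : F ≃ₐ[k] F, g R = -R → ψ g = -1) ∧ ∀ g : F ≃ₐ[k] F, g S = S ↔ ψ g ^ 2 = 1 := by
  classical
  set Ω := AlgebraicClosure k with hΩ
  obtain ⟨s, hs⟩ := IsAlgClosed.exists_pow_nat_eq (algebraMap k Ω (1 + β ^ 2)) (n := 2) (by norm_num)
  obtain ⟨r, hr⟩ := IsAlgClosed.exists_pow_nat_eq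
    (algebraMap k Ω q * (algebraMap k Ω (1 + β ^ 2) + s)) (n := 2) (by norm_num)
  set c : Ω := algebraMap k Ω q with hc
  have hc0 : c ≠ 0 := fun h => hq ((algebraMap k Ω).injective (by rw [← hc, h, map_zero]))
  set a : Ω := algebraMap k Ω (1 + β ^ 2) with ha
  set b : Ω := algebraMap k Ω β with hb
  have hab : a = 1 + b ^ 2 := by rw [ha, hb, map_add, map_one, map_pow]
  have hsk : ∀ x : k, algebraMap k Ω x ≠ s := by
    intro x hx
    apply hα
    refine ⟨x, (algebraMap k Ω).injective ?_⟩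
    rw [map_mul, hx, ← sq, hs]
  have hr0 : r ≠ 0 := by
    intro h0
    rw [h0, zero_pow two_ne_zero] at hr
    have hr2 := (mul_eq_zero.mp hr.symm).resolve_left hc0
    apply hsk (-(1 + β ^ 2))
    rw [map_neg]
    linear_combination -hr2
  have hs0 : s ≠ 0 := fun h0 => hsk 0 (by rw [h0, map_zero])
  have hb0 : b ≠ 0 := by
    intro h0
    have : β = 0 := (algebraMap k Ω).injective (by rw [← hb, h0, map_zero])
    apply hα
    rw [this]
    exact ⟨1, by ring⟩
  set r' : Ω := c * s * b / r with hr'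
  have hrr : r * r' = c * s * b := by rw [hr', mul_div_cancel₀ _ hr0]
  have hr'0 : r' ≠ 0 := by
    intro h0
    rw [h0, mul_zero] at hrr
    exact mul_ne_zero (mul_ne_zero hc0 hs0) hb0 hrr.symm
  have hr'2 : r' ^ 2 = c * (a - s) := by
    have h1 : r ^ 2 * r' ^ 2 = r ^ 2 * (c * (a - s)) := by
      rw [← mul_pow, hrr, hr, mul_pow, mul_pow, hs]
      linear_combination c ^ 2 * hs - c ^ 2 * a * hab
    exact mul_left_cancel₀ (pow_ne_zero 2 hr0) h1
  set F : IntermediateField k Ω := IntermediateField.adjoin k {r} with hF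
  have hrF : r ∈ F := IntermediateField.mem_adjoin_simple_self k r
  have haF : a ∈ F := F.algebraMap_mem _
  have hbF : b ∈ F := F.algebraMap_mem _
  have hcF : c ∈ F := F.algebraMap_mem _
  have hsF : s ∈ F := by
    have : s = r ^ 2 / c - a := by rw [hr, mul_div_cancel_left₀ _ hc0]; ring
    rw [this]
    exact sub_mem (div_mem (pow_mem hrF 2) hcF) haF
  have hr'F : r' ∈ F := F.div_mem (F.mul_mem (F.mul_mem hcF hsF) hbF) hrF
  -- normal
  have hnorm : Normal k F := by
    rw [IntermediateField.normal_iff_forall_map_le']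
    intro σ
    rw [hF, IntermediateField.adjoin_map, IntermediateField.adjoin_le_iff]
    rintro _ ⟨x, hx, rfl⟩
    rw [Set.mem_singleton_iff] at hx
    rw [hx]
    show σ r ∈ F
    have hs2 : σ s ^ 2 = s ^ 2 := by rw [← map_pow, hs, ha, σ.commutes]
    have hr2 : σ r ^ 2 = c * (a + σ s) := by
      rw [← map_pow, hr, map_mul, map_add, ha, hc, σ.commutes, σ.commutes]
    rcases sq_eq_sq_iff_eq_or_eq_neg.mp hs2 with h | h
    · rw [h, ← hr] at hr2
      rcases sq_eq_sq_iff_eq_or_eq_neg.mp hr2 with h' | h'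
      · rw [h']; exact hrF
      · rw [h']; exact neg_mem hrF
    · rw [h, ← sub_eq_add_neg, ← hr'2] at hr2
      rcases sq_eq_sq_iff_eq_or_eq_neg.mp hr2 with h' | h'
      · rw [h']; exact hr'F
      · rw [h']; exact neg_mem hr'F
  have := hnorm
  have hfd : FiniteDimensional k F :=
    IntermediateField.adjoin.finiteDimensional (Algebra.IsIntegral.isIntegral r)
  have : CharZero k := inferInstance
  have hgal : IsGalois k F := ⟨⟩
  have hnf : NumberField F := NumberField.of_module_finite k F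
  -- elements of F
  let R : F := ⟨r, hrF⟩
  let R' : F := ⟨r', hr'F⟩
  let S : F := ⟨s, hsF⟩
  have eS : S * S = algebraMap k F (1 + β ^ 2) := Subtype.ext (by
    show s * s = a
    rw [← sq, hs])
  have eR : R ^ 2 = algebraMap k F q * (algebraMap k F (1 + β ^ 2) + S) := Subtype.ext (by
    show r ^ 2 = c * (a + s)
    rw [hr])
  have eR' : R' ^ 2 = algebraMap k F q * (algebraMap k F (1 + β ^ 2) - S) := Subtype.ext (by
    show r' ^ 2 = c * (a - s)
    rw [hr'2])
  have eRR : R * R' = algebraMap k F q * S * algebraMap k F β := Subtype.ext (by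
    show r * r' = c * s * b
    rw [hrr])
  have nq : algebraMap k F q ≠ 0 := fun h => hq ((algebraMap k F).injective (by rw [h, map_zero]))
  have nR : R ≠ 0 := fun h => hr0 (congrArg Subtype.val h)
  have nR' : R' ≠ 0 := fun h => hr'0 (congrArg Subtype.val h)
  have nS : S ≠ 0 := fun h => hs0 (congrArg Subtype.val h)
  have h12 : R ^ 2 ≠ R' ^ 2 := by
    intro h
    rw [eR, eR'] at h
    have h2 : (2 : F) * S = 0 := by
      have := mul_left_cancel₀ nq h
      linear_combination this
    rcases mul_eq_zero.mp h2 with h3 | h3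
    · exact two_ne_zero h3
    · exact nS h3
  have hne1 : R ≠ R' := fun h => h12 (by rw [h])
  have hne2 : R ≠ -R' := fun h => h12 (by rw [h, neg_sq])
  have hIu : IsUnit Complex.I := isUnit_iff_ne_zero.mpr Complex.I_ne_zero
  obtain ⟨uI, huI⟩ := hIu
  have key : ∀ g : F ≃ₐ[k] F, ∃ u : ℂˣ, Ro R R' g u ∧ (g S = S ↔ u ^ 2 = 1) := by
    intro g
    have g1 : g S ^ 2 = S ^ 2 := by rw [← map_pow, sq, eS, g.commutes]
    have g2 : g R ^ 2 = algebraMap k F q * (algebraMap k F (1 + β ^ 2) + g S) := by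
      rw [← map_pow, eR, map_mul, map_add, g.commutes, g.commutes]
    have g3 : g R * g R' = algebraMap k F q * g S * algebraMap k F β := by
      rw [← map_mul, eRR, map_mul, map_mul, g.commutes, g.commutes]
    rcases sq_eq_sq_iff_eq_or_eq_neg.mp g1 with h | h
    · rw [h, ← eR] at g2
      rw [h, ← eRR] at g3
      rcases sq_eq_sq_iff_eq_or_eq_neg.mp g2 with h' | h'
      · refine ⟨1, Or.inl ⟨h', ?_, rfl⟩, by simp [h]⟩
        rw [h'] at g3
        exact mul_left_cancel₀ nR g3
      · refine ⟨-1, Or.inr (Or.inl ⟨h', ?_, by simp⟩), by simp [h]⟩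
        rw [h'] at g3
        apply mul_left_cancel₀ nR
        linear_combination -g3
    · have hne : ¬ g S = S := by
        rw [h]
        intro h3
        exact nS (self_eq_neg.mp h3.symm)
      have hI2 : (uI : ℂˣ) ^ 2 ≠ 1 := by
        intro h3
        have h4 := congrArg (Units.val) h3
        rw [Units.val_pow_eq_pow_val, huI, Complex.I_sq, Units.val_one] at h4
        norm_num at h4
      have hI2' : (-uI : ℂˣ) ^ 2 ≠ 1 := by rw [neg_sq]; exact hI2
      rw [h, ← sub_eq_add_neg, ← eR'] at g2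
      rw [h, mul_neg, neg_mul, ← eRR] at g3
      rcases sq_eq_sq_iff_eq_or_eq_neg.mp g2 with h' | h'
      · refine ⟨uI, Or.inr (Or.inr (Or.inl ⟨h', ?_, huI⟩)), by simp [hne, hI2]⟩
        rw [h'] at g3
        apply mul_left_cancel₀ nR'
        linear_combination g3
      · refine ⟨-uI, Or.inr (Or.inr (Or.inr ⟨h', ?_, by simp [huI]⟩)), by simp [hne, hI2]⟩
        rw [h'] at g3
        apply mul_left_cancel₀ nR'
        linear_combination -g3
  choose u hu huS using key
  let ψ : (F ≃ₐ[k] F) →* ℂˣ :=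
    MonoidHom.mk' u fun g h => Ro_unique nR nR' hne1 hne2 (hu (g * h)) (Ro_mul (hu g) (hu h))
  refine ⟨F, inferInstance, hnf, inferInstance, hgal, ψ, R, S, ?_, ?_, eR, eS, ?_, ?_, ?_⟩
  · rw [injective_iff_map_eq_one]
    intro g hg
    have hg' : u g = 1 := hg
    have h1 : g R = R := by
      rcases hu g with ⟨a, _, c⟩ | ⟨_, _, c⟩ | ⟨_, _, c⟩ | ⟨_, _, c⟩
      · exact a
      all_goals
        exfalso
        rw [hg', Units.val_one] at c
        first
          | (norm_num at c; done)
          | (have := congrArg Complex.re c; simp at this)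
    have h2 : (g : F →ₐ[k] F) = AlgHom.id k F := by
      refine IntermediateField.algHom_ext_of_eq_adjoin k hF ?_
      intro x hx
      have hx' : x = r := hx
      subst hx'
      exact h1
    ext x
    exact congrArg Subtype.val (DFunLike.congr_fun h2 x)
  · intro g
    have h1 : (ψ g : ℂ) ^ 4 = 1 := by
      show (u g : ℂ) ^ 4 = 1
      rcases hu g with ⟨_, _, c⟩ | ⟨_, _, c⟩ | ⟨_, _, c⟩ | ⟨_, _, c⟩ <;> rw [c]
      · norm_num
      · norm_num
      · exact Complex.I_pow_four
      · rw [neg_pow, Complex.I_pow_four]; norm_num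
    exact Units.ext (by rw [Units.val_pow_eq_pow_val, h1, Units.val_one])
  · intro g hg
    apply Units.ext
    change (u g : ℂ) = 1
    rcases hu g with ⟨_, _, c⟩ | ⟨a, _, _⟩ | ⟨a, _, _⟩ | ⟨a, _, _⟩
    · exact c
    · exact absurd (self_eq_neg.mp (hg.symm.trans a)) nR
    · exact absurd (hg.symm.trans a) hne1
    · exact absurd (hg.symm.trans a) hne2
  · intro g hg
    apply Units.ext
    change (u g : ℂ) = ((-1 : ℂˣ) : ℂ)
    rcases hu g with ⟨a, _, _⟩ | ⟨_, _, c⟩ | ⟨a, _, _⟩ | ⟨a, _, _⟩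
    · exact absurd (self_eq_neg.mp (a.symm.trans hg)) nR
    · rw [c]
      simp
    · exact absurd (by rw [← a, hg, neg_neg]) (fun h : R = -R' => hne2 h)
    · exact absurd (neg_injective (hg.symm.trans a)) hne1
  · intro g
    exact huS g

end quart

end Pool.Agent.W2helper72.SK
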