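import Mathlib
import Pool.Agent.W2helper72.SK.Crit
import Pool.Agent.W2helper72.SK.Qu
import Pool.Agent.W2helper72.SK.Ari

/-!
# Existence of isolated characters over every real quadratic field
-/

set_option autoImplicit false
set_option linter.unusedSectionVars false

namespace Pool.Agent.W2helper72.SK

open NumberField NumberField.ComplexEmbedding Pool.Agent.K4H74 Pool.Agent.K4H74.SK
  Pool.Agent.K4H74.ST Pool.Agent.W2helper73.SO Pool.Agent.K4H34.AL Filter

lemma real_of_sq {z : ℂ} {x : ℝ} (hx : 0 ≤ x) (h : z ^ 2 = (x : ℂ)) : star z = z := by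
  have h1 : z ^ 2 = ((Real.sqrt x : ℝ) : ℂ) ^ 2 := by
    rw [h, ← Complex.ofReal_pow, Real.sq_sqrt hx]
  rcases sq_eq_sq_iff_eq_or_eq_neg.mp h1 with h2 | h2
  · rw [h2]
    exact Complex.conj_ofReal _
  · rw [h2, star_neg]
    congr 1
    exact Complex.conj_ofReal _

lemma imag_of_sq {z : ℂ} {x : ℝ} (hx : x ≤ 0) (h : z ^ 2 = (x : ℂ)) : star z = -z := by
  have h1 : (Complex.I * z) ^ 2 = ((-x : ℝ) : ℂ) := by
    rw [mul_pow, h, Complex.I_sq]
    push_cast
    ring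
  have h2 := real_of_sq (by linarith) h1
  have h3 : star (Complex.I * z) = -Complex.I * star z := by
    rw [star_mul', show star Complex.I = -Complex.I from Complex.conj_I]
  rw [h3] at h2
  have h4 : Complex.I ≠ 0 := Complex.I_ne_zero
  apply mul_left_cancel₀ h4
  linear_combination -h2

section sig

variable {K F : Type} [Field K] [NumberField K] [Field F] [NumberField F] [Algebra K F]
  [IsGalois K F]

/-- the signature of the quartic characters -/
lemma signature {θ β : K} {ψ : (F ≃ₐ[K] F) →* ℂˣ} {R S : F} (hβ : β ≠ 0)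
    (eR : R ^ 2 = algebraMap K F θ * (algebraMap K F (1 + β ^ 2) + S))
    (eS : S * S = algebraMap K F (1 + β ^ 2)) (p1 : ∀ g : F ≃ₐ[K] F, g R = R → ψ g = 1)
    (p2 : ∀ g : F ≃ₐ[K] F, g R = -R → ψ g = -1) (hK : IsTotallyReal K) {φ : F →+* ℂ}
    {t : F ≃ₐ[K] F} (ht : IsConj φ t) :
    (0 ≤ (φ (algebraMap K F θ)).re → ψ t = 1) ∧ ((φ (algebraMap K F θ)).re ≤ 0 → ψ t = -1) := by
  have hre : ∀ x : K, φ (algebraMap K F x) = (((φ (algebraMap K F x)).re : ℝ) : ℂ) := by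
    intro x
    have h1 : IsReal (φ.comp (algebraMap K F)) := by
      have := IsTotallyReal.isReal (K := K) (InfinitePlace.mk (φ.comp (algebraMap K F)))
      rwa [InfinitePlace.isReal_mk_iff] at this
    have h2 := RingHom.congr_fun (ComplexEmbedding.isReal_iff.mp h1) x
    exact (Complex.conj_eq_iff_re.mp h2).symm
  set w : ℝ := (φ (algebraMap K F θ)).re with hw
  set b : ℝ := (φ (algebraMap K F β)).re with hb
  have hb0 : b ≠ 0 := by
    intro h0
    apply hβ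
    have h1 := hre β
    rw [← hb, h0, Complex.ofReal_zero] at h1
    have h2 : algebraMap K F β = 0 := φ.injective (by rw [h1, map_zero])
    exact (algebraMap K F).injective (by rw [h2, map_zero])
  have hA : φ (algebraMap K F (1 + β ^ 2)) = ((1 + b ^ 2 : ℝ) : ℂ) := by
    rw [map_add, map_one, map_pow, map_add, map_one, map_pow, hre β]
    push_cast
    rfl
  have hS : φ S ^ 2 = ((1 + b ^ 2 : ℝ) : ℂ) := by rw [← map_pow, sq, eS, hA]
  have hSr : φ S = (((φ S).re : ℝ) : ℂ) :=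
    (Complex.conj_eq_iff_re.mp (real_of_sq (by positivity) hS)).symm
  set σ : ℝ := (φ S).re with hσ
  have hσ2 : σ ^ 2 = 1 + b ^ 2 := by
    rw [hSr, ← Complex.ofReal_pow] at hS
    exact Complex.ofReal_injective hS
  have hpos : 0 < (1 + b ^ 2) + σ := by
    have h1 : 0 < b ^ 2 := by positivity
    nlinarith [sq_nonneg (σ + 1), sq_nonneg (σ + (1 + b ^ 2))]
  have hR : φ R ^ 2 = ((w * ((1 + b ^ 2) + σ) : ℝ) : ℂ) := by
    rw [← map_pow, eR, map_mul, map_add, hA, hSr, hre θ]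
    push_cast
    rfl
  constructor
  · intro h0
    apply p1
    apply φ.injective
    rw [ht.eq]
    exact real_of_sq (mul_nonneg h0 hpos.le) hR
  · intro h0
    apply p2
    apply φ.injective
    rw [ht.eq, map_neg]
    exact imag_of_sq (mul_nonpos_of_nonpos_of_nonneg h0 hpos.le) hR

end sig

/-- elements which are fixed by the stabiliser of an embedding -/
lemma mem_of_fixed {N : Type} [Field N] [NumberField N] [IsGalois ℚ N] {K : Type} [Field K]
    [NumberField K] (φ : K →+* N) {x : N} (h : ∀ s ∈ Hs φ, s x = x) : ∃ k, φ k = x := by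
  let e : K →ₐ[ℚ] N := φ.toRatAlgHom
  have h1 : x ∈ e.fieldRange := by
    rw [← IsGalois.fixedField_fixingSubgroup e.fieldRange, IntermediateField.mem_fixedField_iff]
    intro g hg
    rw [IntermediateField.mem_fixingSubgroup_iff] at hg
    exact h g (mem_Hs.mpr fun y => hg _ ⟨y, rfl⟩)
  exact h1

/-- **Isolated characters exist over every real quadratic field.** -/
theorem exists_isolated (K : Type) [Field K] [NumberField K] (h2 : Module.finrank ℚ K = 2)
    (hK : IsTotallyReal K) :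
    ∃ (L : Type) (_ : Field L) (_ : NumberField L) (_ : Algebra K L) (_ : IsGalois K L)
      (ψ : G ⟨K, L⟩ →* ℂˣ), Function.Injective ψ ∧ (∀ g, ψ g ^ 4 = 1) ∧ Mixed ψ ∧
      ¬ SquareInvariant ψ := by
  classical
  obtain ⟨θ, D, hθ, hD, hirr⟩ := exists_theta h2 hK
  have hθ0 : θ ≠ 0 := fun h => hirr 0 (by rw [h]; simp)
  have hβ : (1 + 2 * θ : K) ≠ 0 := by
    intro h
    apply hirr (-1 / 2)
    push_cast
    linear_combination (-1 / 2 : K) * h
  obtain ⟨F, i1, i2, i3, i4, ψ, R, S, hinj, h4, eR, eS, p1, p2, p3⟩ :=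
    exists_quartic K θ (1 + 2 * θ) hθ0 (not_sq_alpha h2 hθ hD hirr)
  have hfin : FiniteDimensional K F := Module.Finite.of_restrictScalars_finite ℚ K F
  -- embeddings
  have hcard : Fintype.card (K →+* ℂ) = 2 := by rw [← h2]; exact Embeddings.card K ℂ
  obtain ⟨τ, τ', hne⟩ : ∃ τ τ' : K →+* ℂ, τ ≠ τ' := by
    obtain ⟨a, b, h⟩ := Fintype.exists_pair_of_one_lt_card (show 1 < Fintype.card (K →+* ℂ) by omega)
    exact ⟨a, b, h⟩
  have hdiff : τ' θ = - τ θ := by
    have h5 : τ' θ * τ' θ = τ θ * τ θ := by rw [← map_mul, ← map_mul, hθ, map_natCast, map_natCast]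
    refine (mul_self_eq_mul_self_iff.mp h5).resolve_left fun h6 => hne ?_
    ext y
    obtain ⟨u, v, rfl⟩ := coords h2 hirr y
    simp [h6]
  have hr : ∀ τ : K →+* ℂ, IsReal τ := fun τ => by
    have := IsTotallyReal.isReal (K := K) (InfinitePlace.mk τ)
    rwa [InfinitePlace.isReal_mk_iff] at this
  have hlift : ∀ τ : K →+* ℂ, ∃ (φ : F →+* ℂ) (t : F ≃ₐ[K] F), φ.comp (algebraMap K F) = τ ∧
      IsConj φ t := by
    intro τ
    refine ⟨ComplexEmbedding.lift F τ, ?_⟩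
    obtain ⟨t, ht⟩ := exists_conj (K := K) (φ := ComplexEmbedding.lift F τ) (by
      rw [ComplexEmbedding.lift_comp_algebraMap]
      exact hr τ)
    exact ⟨t, ComplexEmbedding.lift_comp_algebraMap F τ, ht⟩
  have hmix : Mixed (E := ⟨K, F⟩) ψ := by
    obtain ⟨φ, t, hφ, ht⟩ := hlift τ
    obtain ⟨φ', t', hφ', ht'⟩ := hlift τ'
    have s1 := signature hβ eR eS p1 p2 hK ht
    have s2 := signature hβ eR eS p1 p2 hK ht'
    have e1 : φ (algebraMap K F θ) = τ θ := RingHom.congr_fun hφ θ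
    have e2 : φ' (algebraMap K F θ) = τ' θ := RingHom.congr_fun hφ' θ
    rw [e1] at s1
    rw [e2, hdiff, Complex.neg_re] at s2
    have c1 : IsCC (E := ⟨K, F⟩) t := ⟨φ, fun x => ht.eq x⟩
    have c2 : IsCC (E := ⟨K, F⟩) t' := ⟨φ', fun x => ht'.eq x⟩
    have hne1 : (-1 : ℂˣ) ≠ 1 := by
      intro h
      have h7 : (((-1 : ℂˣ)) : ℂ) = ((1 : ℂˣ) : ℂ) := by rw [h]
      norm_num at h7
    rcases le_total 0 (τ θ).re with h | h
    · refine ⟨h2, hK, ⟨t, c1, s1.1 h⟩, ⟨t', c2, ?_⟩⟩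
      change ψ t' ≠ 1
      rw [s2.2 (by linarith)]
      exact hne1
    · refine ⟨h2, hK, ⟨t', c2, s2.1 (by linarith)⟩, ⟨t, c1, ?_⟩⟩
      change ψ t ≠ 1
      rw [s1.2 h]
      exact hne1
  refine ⟨F, i1, i2, i3, i4, ψ, hinj, h4, hmix, fun hsq => ?_⟩
  obtain ⟨N, ⟨φ₀⟩⟩ := (ev_emb F).exists
  obtain ⟨D'⟩ := exists_Dt (Mixed.mix (E := ⟨K, F⟩) hmix) φ₀
  have hDs : D'.Sq := sq_of_abs (E := ⟨K, F⟩) hsq N D'
  have hi : D'.S.index = 2 := by
    change (Hs (D'.φ.comp (algebraMap K F))).index = 2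
    rw [index_Hs, h2]
  have nS : D'.S.Normal := Subgroup.normal_of_index_eq_two hi
  obtain ⟨σ, hσ⟩ : ∃ σ, σ ∉ D'.S := by
    by_contra hcon
    push Not at hcon
    rw [Subgroup.eq_top_iff' _ |>.mpr hcon, Subgroup.index_top] at hi
    omega
  let τK : K →+* N := D'.φ.comp (algebraMap K F)
  have hστ : σ⁻¹ (τK θ) = - τK θ := by
    have h5 : σ⁻¹ (τK θ) * σ⁻¹ (τK θ) = τK θ * τK θ := by
      rw [← map_mul, ← map_mul, hθ, map_natCast, map_natCast]
    refine (mul_self_eq_mul_self_iff.mp h5).resolve_left fun h6 => hσ ?_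
    have h7 : σ⁻¹ ∈ D'.S := by
      refine mem_Hs.mpr fun y => ?_
      obtain ⟨u, v, rfl⟩ := coords h2 hirr y
      change σ⁻¹ (τK (u + v * θ)) = τK (u + v * θ)
      rw [map_add, map_mul, map_add, map_mul, h6]
      simp
    exact inv_mem_iff.mp h7
  set δ : N := D'.φ S with hδ
  set δ' : N := σ⁻¹ δ with hδ'
  have hδ2 : δ * δ = τK (1 + (1 + 2 * θ) ^ 2) := by rw [hδ, ← map_mul, eS]; rfl
  have hδ'2 : δ' * δ' = τK (1 + (1 - 2 * θ) ^ 2) := by
    rw [hδ', ← map_mul, hδ2]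
    simp only [map_add, map_one, map_pow, map_mul, map_sub, map_ofNat, hστ]
    ring
  have key : ∀ s : D'.S, (s : N ≃ₐ[ℚ] N) δ = δ ↔ D'.θ s ^ 2 = 1 := by
    intro s
    have h5 : (s : N ≃ₐ[ℚ] N) δ = D'.φ (D'.ρ s S) := D'.rl s S
    have h6 := p3 (D'.ρ s)
    change _ ↔ ψ (D'.ρ s) ^ 2 = 1
    rw [← h6, h5, hδ]
    exact ⟨fun h => D'.φ.injective h, fun h => by rw [h]⟩
  have key' : ∀ s : D'.S, (s : N ≃ₐ[ℚ] N) δ' = δ' ↔ D'.θ s ^ 2 = 1 := by
    intro s
    have h7 : σ * s * σ⁻¹ ∈ D'.S := nS.conj_mem _ s.2 σ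
    have h8 := hDs σ s ⟨_, h7⟩ rfl
    rw [← h8, ← key ⟨_, h7⟩]
    change (s : N ≃ₐ[ℚ] N) (σ⁻¹ δ) = σ⁻¹ δ ↔ σ ((s : N ≃ₐ[ℚ] N) (σ⁻¹ δ)) = δ
    constructor
    · intro h
      rw [h]
      exact AlgEquiv.apply_symm_apply σ δ
    · intro h
      apply σ.injective
      rw [h]
      exact (AlgEquiv.apply_symm_apply σ δ).symm
  have hfix : ∀ s ∈ Hs τK, s (δ * δ') = δ * δ' := by
    intro s hs
    have f1 : s δ * s δ = δ * δ := by rw [← map_mul, hδ2]; exact mem_Hs.mp hs _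
    have f2 : s δ' * s δ' = δ' * δ' := by rw [← map_mul, hδ'2]; exact mem_Hs.mp hs _
    rw [map_mul]
    by_cases h5 : D'.θ ⟨s, hs⟩ ^ 2 = 1
    · have g1 : s δ = δ := (key ⟨s, hs⟩).mpr h5
      have g2 : s δ' = δ' := (key' ⟨s, hs⟩).mpr h5
      rw [g1, g2]
    · have g1 : s δ = -δ := (mul_self_eq_mul_self_iff.mp f1).resolve_left
        fun h => h5 ((key ⟨s, hs⟩).mp h)
      have g2 : s δ' = -δ' := (mul_self_eq_mul_self_iff.mp f2).resolve_left
        fun h => h5 ((key' ⟨s, hs⟩).mp h)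
      rw [g1, g2, neg_mul_neg]
  obtain ⟨y, hy⟩ := mem_of_fixed τK hfix
  apply not_sq_norm h2 hθ hD hirr
  refine ⟨y, τK.injective ?_⟩
  have e9 : τK (y * y) = (δ * δ) * (δ' * δ') := by
    rw [map_mul, hy]
    ring
  rw [e9, hδ2, hδ'2, ← map_mul]
  congr 1
  linear_combination (-16 * (D + θ * θ)) * hθ

end Pool.Agent.W2helper72.SK
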